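import Mathlib

/-!
# Perfectly normal convex compacta, a principle about finite approximations, forcing
-/

set_option autoImplicit false
set_option linter.unusedSectionVars false
set_option linter.unusedVariables false

namespace Pool.Agent.Helper161.Cvx

open Cardinal

section Question

/-- Question Q2: every perfectly normal compact convex subset of a Hausdorff locally convex real
topological vector space is separable. -/
def PositiveQ2 : Prop :=
  ∀ (E : Type) [AddCommGroup E] [Module ℝ E] [TopologicalSpace E]
    [IsTopologicalAddGroup E] [ContinuousSMul ℝ E] [LocallyConvexSpace ℝ E] [T2Space E]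
    (K : Set E), IsCompact K → Convex ℝ K → PerfectlyNormalSpace ↥K →
      TopologicalSpace.SeparableSpace ↥K

end Question

section Principle

/-- `Hull 𝕜 A v z`: the vector `z`, restricted to the finite set `A` of coordinates, is a sum of
vectors `u i * v i` (product coordinate by coordinate), where the coefficients `u i` are
nonnegative and decrease with the coordinate, and their sum is at most `1` at each coordinate. So
`z` restricted to `A` is in the convex hull of the vectors obtained from the vectors `v i` by
replacing the coordinates after some place by `0`. -/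
def Hull {Ω ι : Type} [LinearOrder Ω] [Fintype ι] (𝕜 : Type) [Field 𝕜] [LinearOrder 𝕜]
    (A : Finset Ω) (v : ι → Ω → ℚ) (z : Ω → 𝕜) : Prop :=
  ∃ u : ι → Ω → 𝕜, (∀ i, ∀ a ∈ A, 0 ≤ u i a) ∧ (∀ i, ∀ a ∈ A, ∀ b ∈ A, a ≤ b → u i b ≤ u i a) ∧
    (∀ a ∈ A, ∑ i, u i a ≤ 1) ∧ ∀ a ∈ A, z a = ∑ i, u i a * (v i a : 𝕜)

/-- A finite approximation to a convex set: a finite set `A` of coordinates and finitely many
rational vectors `v l` with coordinates in `[0, 1]`, which are `0` outside of `A`, such that for
each `a` in `A` some of these vectors has the coordinate `1` at `a`. -/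
structure Cd (Ω : Type) [LinearOrder Ω] where
  A : Finset Ω
  N : ℕ
  v : Fin N → Ω → ℚ
  supp : ∀ l, ∀ a ∉ A, v l a = 0
  nonneg : ∀ l a, 0 ≤ v l a
  le_one : ∀ l a, v l a ≤ 1
  top : ∀ a ∈ A, ∃ l, v l a = 1

variable {Ω : Type} [LinearOrder Ω]

/-- `r` refines `p`: it has more coordinates, and all its vectors, restricted to the coordinates
of `p`, are in the convex set given by `p`. -/
def Refines (r p : Cd Ω) : Prop := p.A ⊆ r.A ∧ ∀ g, Hull ℚ p.A p.v (r.v g)

/-- A box: a finite set of pairs `(a, q)` and a number `k`. The vector `z` is in the `j`-fold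
enlargement of the box if `|z a - q| < j / (k + 1)` for all these pairs. -/
def Near {𝕜 : Type} [Field 𝕜] [LinearOrder 𝕜] (j : ℕ) (b : Finset (Ω × ℚ) × ℕ)
    (z : Ω → 𝕜) : Prop :=
  ∀ e ∈ b.1, |z e.1 - (e.2 : 𝕜)| < (j : 𝕜) / ((b.2 : 𝕜) + 1)

/-- All rational vectors in the convex set given by `r` and in the box `b` are in the 2-fold
enlargement of one of the boxes in the list `D` (boxes indexed by elements of `Ω`). -/
def Covers (r : Cd Ω) (b : Finset (Ω × ℚ) × ℕ) (D : Finset (Ω × (Finset (Ω × ℚ) × ℕ))) : Prop :=
  ∀ z : Ω → ℚ, Hull ℚ r.A r.v z → Near 1 b z → ∃ e ∈ D, Near 2 e.2 z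

/-- All rational vectors in the convex set given by `r` have `z a + z b ≤ 1`. -/
def Apart (r : Cd Ω) (a b : Ω) : Prop := ∀ z : Ω → ℚ, Hull ℚ r.A r.v z → z a + z b ≤ 1

variable (Ω)

/-- The principle: there is a set `G` of finite approximations such that
* any two elements of `G` are refined by an element of `G`;
* for each family of boxes `c β` (`β ∈ Ω`) there are `β`, finitely many `α < β` and `r ∈ G` such
  that the part of the convex set given by `r` in the box `c β` is covered by the enlargements of
  the boxes `c α`;
* for each unbounded set `S` there are `a ≠ b` in `S` and `r ∈ G` such that `z a + z b ≤ 1` on the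
  convex set given by `r`. -/
def ConvexPrinciple : Prop :=
  ∃ G : Set (Cd Ω),
    (∀ p ∈ G, ∀ q ∈ G, ∃ r ∈ G, Refines r p ∧ Refines r q) ∧
    (∀ c : Ω → Finset (Ω × ℚ) × ℕ, ∃ (β : Ω) (D : Finset (Ω × (Finset (Ω × ℚ) × ℕ))),
      ∃ r ∈ G, (∀ e ∈ D, e.1 < β ∧ c e.1 = e.2) ∧ Covers r (c β) D) ∧
    (∀ S : Set Ω, (∀ x, ∃ a ∈ S, x < a) → ∃ a ∈ S, ∃ b ∈ S, ∃ r ∈ G, a ≠ b ∧ Apart r a b)

end Principle

section Lang

universe v w

variable {P : Type} [Preorder P]

/-- `p` forces `not φ` iff no `q ≤ p` forces `φ`. -/
def fnot (φ : Set P) : Set P := {p | ∀ q ≤ p, q ∉ φ}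

/-- `p` forces `φ and ψ` iff it forces both. -/
def fand (φ ψ : Set P) : Set P := {p | p ∈ φ ∧ p ∈ ψ}

/-- `p` forces `for all i, φ i` iff it forces every `φ i`. -/
def fall {ι : Sort v} (φ : ι → Set P) : Set P := {p | ∀ i, p ∈ φ i}

/-- `φ implies ψ` is `not (φ and not ψ)`. -/
def fimp (φ ψ : Set P) : Set P := fnot (fand φ (fnot ψ))

/-- `there is i with φ i` is `not for all i, not φ i`. -/
def fex {ι : Sort v} (φ : ι → Set P) : Set P := fnot (fall fun i => fnot (φ i))

/-- An absolute statement about ground model objects. -/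
def fground (h : Prop) : Set P := {_p | h}

/-- `p` forces that the generic filter meets the set `N` of conditions:
the set of `r` lying below some member of `N` is dense below `p`. -/
def meets (N : Set P) : Set P := {p | ∀ q ≤ p, ∃ r ≤ q, ∃ s ∈ N, r ≤ s}

/-- The relation named by `R` is a function from `X` to `Y`. -/
def IsFun {X : Type v} {Y : Type w} (R : X → Y → Set P) : Set P :=
  fand (fall fun x => fex fun y => meets (R x y))
    (fall fun x => fall fun y => fall fun y' =>
      fimp (fand (meets (R x y)) (meets (R x y'))) (fground (y = y')))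

/-- the countable chain condition -/
def CCC (P : Type) [Preorder P] : Prop :=
  ∀ A : Set P, (∀ a ∈ A, ∀ b ∈ A, (∃ r, r ≤ a ∧ r ≤ b) → a = b) → A.Countable

end Lang

section Forced

variable {P : Type} [Preorder P] {Ω : Type} [LinearOrder Ω]

/-- Any two members of the family named by `G` are refined by a member of it. -/
def FDirected (G : Cd Ω → Set P) : Set P :=
  fall fun p => fall fun q => fimp (fand (meets (G p)) (meets (G q)))
    (fex fun r => fand (meets (G r)) (fground (Refines r p ∧ Refines r q)))

/-- The second clause of the principle, for the function named by `c`. -/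
def FCovers (G : Cd Ω → Set P) (c : Ω → Finset (Ω × ℚ) × ℕ → Set P) : Set P :=
  fex fun β : Ω => fex fun D : Finset (Ω × (Finset (Ω × ℚ) × ℕ)) => fex fun r : Cd Ω =>
    fex fun b : Finset (Ω × ℚ) × ℕ => fand (meets (G r)) (fand
      (fall fun e => fall fun _ : e ∈ D => fand (fground (e.1 < β)) (meets (c e.1 e.2)))
      (fand (meets (c β b)) (fground (Covers r b D))))

/-- The set named by `S` is unbounded in `Ω`. -/
def FUnbounded (S : Ω → Set P) : Set P :=
  fall fun x : Ω => fex fun a : Ω => fand (meets (S a)) (fground (x < a))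

/-- The conclusion of the third clause of the principle, for the set named by `S`. -/
def FApart (G : Cd Ω → Set P) (S : Ω → Set P) : Set P :=
  fex fun a : Ω => fex fun b : Ω => fex fun r : Cd Ω => fand (meets (S a)) (fand (meets (S b))
    (fand (meets (G r)) (fground (a ≠ b ∧ Apart r a b))))

variable (P Ω)

/-- The set of the conditions which force the principle. -/
def ForcesConvexPrinciple : Set P :=
  fex fun G : Cd Ω → Set P => fand (FDirected G) (fand
    (fall fun c : Ω → Finset (Ω × ℚ) × ℕ → Set P => fimp (IsFun c) (FCovers G c))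
    (fall fun S : Ω → Set P => fimp (FUnbounded S) (FApart G S)))

end Forced

end Pool.Agent.Helper161.Cvx
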