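import Mathlib
import Pool.Agent.Helper161.Cvx.Statement

/-!
# The principle gives a nonseparable perfectly normal convex compactum
-/

set_option autoImplicit false
set_option linter.unusedSectionVars false
set_option linter.unusedVariables false

namespace Pool.Agent.Helper161.Cvx

open Cardinal

section Zfc

variable {Ω : Type} [LinearOrder Ω]


theorem hull_trans {ι κ : Type} [Fintype ι] [Fintype κ] {𝕜 : Type} [Field 𝕜] [LinearOrder 𝕜]
    [IsStrictOrderedRing 𝕜] {A B : Finset Ω} (hAB : A ⊆ B) {v : ι → Ω → ℚ} {w : κ → Ω → ℚ}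
    (h : ∀ g, Hull ℚ A v (w g)) {z : Ω → 𝕜} (hz : Hull 𝕜 B w z) : Hull 𝕜 A v z := by
  choose x hx0 hxd hx1 hxv using h
  obtain ⟨u, hu0, hud, hu1, huz⟩ := hz
  refine ⟨fun i a => ∑ g, u g a * ((x g i a : ℚ) : 𝕜), ?_, ?_, ?_, ?_⟩
  · intro i a ha
    exact Finset.sum_nonneg fun g _ =>
      mul_nonneg (hu0 g a (hAB ha)) (by exact_mod_cast hx0 g i a ha)
  · intro i a ha b hb hab
    refine Finset.sum_le_sum fun g _ => ?_
    exact mul_le_mul (hud g a (hAB ha) b (hAB hb) hab)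
      (by exact_mod_cast hxd g i a ha b hb hab) (by exact_mod_cast hx0 g i b hb)
      (hu0 g a (hAB ha))
  · intro a ha
    rw [Finset.sum_comm]
    calc ∑ g, ∑ i, u g a * ((x g i a : ℚ) : 𝕜) ≤ ∑ g, u g a := by
          refine Finset.sum_le_sum fun g _ => ?_
          rw [← Finset.mul_sum]
          have h1 : ∑ i, ((x g i a : ℚ) : 𝕜) ≤ 1 := by exact_mod_cast hx1 g a ha
          exact mul_le_of_le_one_right (hu0 g a (hAB ha)) h1
      _ ≤ 1 := hu1 a (hAB ha)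
  · intro a ha
    rw [huz a (hAB ha)]
    simp_rw [Finset.sum_mul]
    rw [Finset.sum_comm]
    refine Finset.sum_congr rfl fun g _ => ?_
    have h2 : ((w g a : ℚ) : 𝕜) = ∑ i, ((x g i a : ℚ) : 𝕜) * ((v i a : ℚ) : 𝕜) := by
      rw [hxv g a ha]
      push_cast
      rfl
    rw [h2, Finset.mul_sum]
    refine Finset.sum_congr rfl fun i _ => ?_
    ring


theorem hull_self {ι : Type} [Fintype ι] (A : Finset Ω) (v : ι → Ω → ℚ) (g : ι) :
    Hull ℚ A v (v g) := by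
  classical
  refine ⟨fun i _ => if i = g then 1 else 0, fun i a _ => ?_, fun i a _ b _ _ => le_rfl,
    fun a _ => ?_, fun a _ => ?_⟩
  · show (0:ℚ) ≤ if i = g then 1 else 0
    split_ifs <;> norm_num
  · simp
  · simp


theorem hull_convex {ι : Type} [Fintype ι] (A : Finset Ω) (v : ι → Ω → ℚ) :
    Convex ℝ {z : Ω → ℝ | Hull ℝ A v z} := by
  rintro x ⟨u, hu1, hu2, hu3, hu4⟩ y ⟨w, hw1, hw2, hw3, hw4⟩ a b ha hb hab
  refine ⟨fun i c => a * u i c + b * w i c, ?_, ?_, ?_, ?_⟩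
  · intro i c hc
    exact add_nonneg (mul_nonneg ha (hu1 i c hc)) (mul_nonneg hb (hw1 i c hc))
  · intro i c hc d hd hcd
    exact add_le_add (mul_le_mul_of_nonneg_left (hu2 i c hc d hd hcd) ha)
      (mul_le_mul_of_nonneg_left (hw2 i c hc d hd hcd) hb)
  · intro c hc
    rw [Finset.sum_add_distrib, ← Finset.mul_sum, ← Finset.mul_sum]
    calc a * ∑ i, u i c + b * ∑ i, w i c ≤ a * 1 + b * 1 :=
          add_le_add (mul_le_mul_of_nonneg_left (hu3 c hc) ha)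
            (mul_le_mul_of_nonneg_left (hw3 c hc) hb)
      _ = 1 := by rw [mul_one, mul_one, hab]
  · intro c hc
    show a * x c + b * y c = _
    rw [hu4 c hc, hw4 c hc, Finset.mul_sum, Finset.mul_sum, ← Finset.sum_add_distrib]
    refine Finset.sum_congr rfl (fun i _ => ?_)
    ring


theorem hull_closed {ι : Type} [Fintype ι] (A : Finset Ω) (v : ι → Ω → ℚ) :
    IsClosed {z : Ω → ℝ | Hull ℝ A v z} := by
  classical
  obtain ⟨S, hS⟩ : ∃ S : Set (ι → A → ℝ), S = {u | (∀ i a, 0 ≤ u i a) ∧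
      (∀ i a b, a ≤ b → u i b ≤ u i a) ∧ (∀ a, ∑ i, u i a ≤ 1)} := ⟨_, rfl⟩
  have hev : ∀ (i : ι) (a : A), Continuous fun u : ι → A → ℝ => u i a := fun i a =>
    (continuous_apply a).comp (continuous_apply i)
  have hSc : IsClosed S := by
    have e1 : S = (⋂ i, ⋂ a, {u : ι → A → ℝ | 0 ≤ u i a}) ∩
        ((⋂ i, ⋂ a, ⋂ b, ⋂ _ : a ≤ b, {u : ι → A → ℝ | u i b ≤ u i a}) ∩
          ⋂ a, {u : ι → A → ℝ | ∑ i, u i a ≤ 1}) := by
      rw [hS]
      ext u
      simp only [Set.mem_setOf_eq, Set.mem_inter_iff, Set.mem_iInter]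
    rw [e1]
    refine IsClosed.inter ?_ (IsClosed.inter ?_ ?_)
    · exact isClosed_iInter fun i => isClosed_iInter fun a =>
        isClosed_le continuous_const (hev i a)
    · exact isClosed_iInter fun i => isClosed_iInter fun a => isClosed_iInter fun b =>
        isClosed_iInter fun _ => isClosed_le (hev i b) (hev i a)
    · exact isClosed_iInter fun a =>
        isClosed_le (continuous_finsetSum _ fun i _ => hev i a) continuous_const
  have hSK : IsCompact S := by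
    have hK : IsCompact (Set.pi Set.univ fun _ : ι => Set.pi Set.univ fun _ : A =>
        Set.Icc (0 : ℝ) 1) :=
      isCompact_univ_pi fun _ => isCompact_univ_pi fun _ => isCompact_Icc
    refine hK.of_isClosed_subset hSc ?_
    intro u hu i _ a _
    rw [hS] at hu
    obtain ⟨h1, h2, h3⟩ := hu
    exact ⟨h1 i a, (Finset.single_le_sum (f := fun i => u i a) (fun j _ => h1 j a)
      (Finset.mem_univ i)).trans (h3 a)⟩
  have hΦ : Continuous fun (u : ι → A → ℝ) (a : A) => ∑ i, u i a * (v i a : ℝ) :=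
    continuous_pi fun a => continuous_finsetSum _ fun i _ => (hev i a).mul continuous_const
  have hcl := (hSK.image hΦ).isClosed
  have hρ : Continuous fun (z : Ω → ℝ) (a : A) => z a :=
    continuous_pi fun a => continuous_apply (a : Ω)
  have hpre := hcl.preimage hρ
  have e2 : {z : Ω → ℝ | Hull ℝ A v z} = (fun (z : Ω → ℝ) (a : A) => z a) ⁻¹'
      ((fun (u : ι → A → ℝ) (a : A) => ∑ i, u i a * (v i a : ℝ)) '' S) := by
    ext z
    constructor
    · rintro ⟨u, h1, h2, h3, h4⟩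
      refine ⟨fun i a => u i a, ?_, ?_⟩
      · rw [hS]
        exact ⟨fun i a => h1 i a a.2, fun i a b hab => h2 i a a.2 b b.2 hab, fun a => h3 a a.2⟩
      · funext a
        exact (h4 a a.2).symm
    · rintro ⟨u, hu, hz⟩
      rw [hS] at hu
      obtain ⟨h1, h2, h3⟩ := hu
      obtain ⟨w, hw⟩ : ∃ w : ι → Ω → ℝ, ∀ i a (h : a ∈ A), w i a = u i ⟨a, h⟩ :=
        ⟨fun i a => if h : a ∈ A then u i ⟨a, h⟩ else 0, fun i a h => dif_pos h⟩
      refine ⟨w, ?_, ?_, ?_, ?_⟩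
      · intro i a ha
        rw [hw i a ha]
        exact h1 i _
      · intro i a ha b hb hab
        rw [hw i a ha, hw i b hb]
        exact h2 i _ _ hab
      · intro a ha
        rw [Finset.sum_congr rfl fun i _ => hw i a ha]
        exact h3 _
      · intro a ha
        rw [Finset.sum_congr rfl fun i _ => by rw [hw i a ha]]
        exact (congrFun hz ⟨a, ha⟩).symm
  rw [e2]
  exact hpre


theorem hull_approx {ι : Type} [Fintype ι] (A : Finset Ω) (v : ι → Ω → ℚ) (z : Ω → ℝ)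
    (hz : Hull ℝ A v z) (δ : ℝ) (hδ : 0 < δ) :
    ∃ z' : Ω → ℚ, Hull ℚ A v z' ∧ ∀ a, |(z' a : ℝ) - z a| < δ := by
  classical
  obtain ⟨u, h0, hd, h1, hz⟩ := hz
  have hM0 : 0 ≤ ∑ i, ∑ a ∈ A, |((v i a : ℚ) : ℝ)| :=
    Finset.sum_nonneg fun i _ => Finset.sum_nonneg fun a _ => abs_nonneg _
  obtain ⟨k, hk⟩ := exists_nat_gt ((∑ i, ∑ a ∈ A, |((v i a : ℚ) : ℝ)|) / δ)
  have hk0 : (0 : ℝ) < k := lt_of_le_of_lt (div_nonneg hM0 hδ.le) hk
  have hk0' : (0 : ℚ) < k := by exact_mod_cast hk0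
  have hMk : (∑ i, ∑ a ∈ A, |((v i a : ℚ) : ℝ)|) / k < δ := by
    rw [div_lt_iff₀ hk0, mul_comm]
    exact (div_lt_iff₀ hδ).1 hk
  have hout : ∀ a : Ω, ∃ q : ℚ, |(q : ℝ) - z a| < δ := by
    intro a
    obtain ⟨q, hq1, hq2⟩ := exists_rat_btwn (show z a < z a + δ by linarith)
    refine ⟨q, ?_⟩
    rw [abs_lt]
    constructor <;> linarith
  choose q hq using hout
  let u' : ι → Ω → ℚ := fun i a => ((⌊(k : ℝ) * u i a⌋ : ℤ) : ℚ) / (k : ℚ)
  have hu'le : ∀ i a, ((u' i a : ℚ) : ℝ) ≤ u i a := by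
    intro i a
    have h := Int.floor_le ((k : ℝ) * u i a)
    show (((((⌊(k : ℝ) * u i a⌋ : ℤ) : ℚ) / (k : ℚ)) : ℚ) : ℝ) ≤ u i a
    push_cast
    rw [div_le_iff₀ hk0]
    linarith
  have hu'ge : ∀ i a, u i a - 1 / k ≤ ((u' i a : ℚ) : ℝ) := by
    intro i a
    have h := (Int.lt_floor_add_one ((k : ℝ) * u i a)).le
    show u i a - 1 / k ≤ (((((⌊(k : ℝ) * u i a⌋ : ℤ) : ℚ) / (k : ℚ)) : ℚ) : ℝ)
    push_cast
    rw [le_div_iff₀ hk0, sub_mul, one_div, inv_mul_cancel₀ hk0.ne']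
    linarith
  refine ⟨fun a => if a ∈ A then ∑ i, u' i a * v i a else q a, ⟨u', ?_, ?_, ?_, ?_⟩, ?_⟩
  · intro i a ha
    show (0 : ℚ) ≤ ((⌊(k : ℝ) * u i a⌋ : ℤ) : ℚ) / (k : ℚ)
    apply div_nonneg _ hk0'.le
    have : (0 : ℤ) ≤ ⌊(k : ℝ) * u i a⌋ := Int.floor_nonneg.2 (mul_nonneg hk0.le (h0 i a ha))
    exact_mod_cast this
  · intro i a ha b hb hab
    show ((⌊(k : ℝ) * u i b⌋ : ℤ) : ℚ) / (k : ℚ) ≤ ((⌊(k : ℝ) * u i a⌋ : ℤ) : ℚ) / (k : ℚ)
    apply div_le_div_of_nonneg_right _ hk0'.le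
    have : ⌊(k : ℝ) * u i b⌋ ≤ ⌊(k : ℝ) * u i a⌋ :=
      Int.floor_le_floor (mul_le_mul_of_nonneg_left (hd i a ha b hb hab) hk0.le)
    exact_mod_cast this
  · intro a ha
    have h2 : ((∑ i, u' i a : ℚ) : ℝ) ≤ 1 := by
      push_cast
      exact (Finset.sum_le_sum fun i _ => hu'le i a).trans (h1 a ha)
    exact_mod_cast h2
  · intro a ha
    simp only [ha, if_true]
    rfl
  · intro a
    by_cases ha : a ∈ A
    · simp only [ha, if_true]
      rw [hz a ha]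
      have e1 : (((∑ i, u' i a * v i a : ℚ)) : ℝ) - ∑ i, u i a * ((v i a : ℚ) : ℝ)
          = ∑ i, (((u' i a : ℚ) : ℝ) - u i a) * ((v i a : ℚ) : ℝ) := by
        rw [Rat.cast_sum, ← Finset.sum_sub_distrib]
        refine Finset.sum_congr rfl fun i _ => ?_
        rw [Rat.cast_mul]
        ring
      rw [e1]
      refine lt_of_le_of_lt (Finset.abs_sum_le_sum_abs _ _) (lt_of_le_of_lt ?_ hMk)
      rw [Finset.sum_div]
      refine Finset.sum_le_sum fun i _ => ?_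
      rw [abs_mul]
      have e2 : |((u' i a : ℚ) : ℝ) - u i a| ≤ 1 / k := by
        rw [abs_le]
        have h3 := hu'le i a
        have h4 := hu'ge i a
        have h5 : (0 : ℝ) ≤ 1 / k := by positivity
        constructor <;> linarith
      have e3 : |((v i a : ℚ) : ℝ)| ≤ ∑ b ∈ A, |((v i b : ℚ) : ℝ)| :=
        Finset.single_le_sum (f := fun b => |((v i b : ℚ) : ℝ)|) (fun b _ => abs_nonneg _) ha
      calc |((u' i a : ℚ) : ℝ) - u i a| * |((v i a : ℚ) : ℝ)|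
          ≤ 1 / k * ∑ b ∈ A, |((v i b : ℚ) : ℝ)| :=
            mul_le_mul e2 e3 (abs_nonneg _) (by positivity)
        _ = (∑ b ∈ A, |((v i b : ℚ) : ℝ)|) / k := by ring
    · simp only [ha, if_false]
      exact hq a

theorem j27997_min {α : Type} (s : Finset α) (f : α → ℝ) (h : ∀ e ∈ s, 0 < f e) :
    ∃ δ : ℝ, 0 < δ ∧ ∀ e ∈ s, δ ≤ f e := by
  classical
  induction s using Finset.induction_on with
  | empty => exact ⟨1, one_pos, fun e he => absurd he (Finset.notMem_empty e)⟩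
  | insert a s ha ih =>
    obtain ⟨δ, hδ, h'⟩ := ih (fun e he => h e (Finset.mem_insert_of_mem he))
    refine ⟨min δ (f a), lt_min hδ (h a (Finset.mem_insert_self a s)), fun e he => ?_⟩
    rcases Finset.mem_insert.1 he with rfl | he
    · exact min_le_right _ _
    · exact (min_le_left _ _).trans (h' e he)

theorem j27997_near (j : ℕ) (b : Finset (Ω × ℚ) × ℕ) (z : Ω → ℚ) :
    Near j b z ↔ ∀ e ∈ b.1, |(z e.1 : ℝ) - (e.2 : ℝ)| < (j : ℝ) / ((b.2 : ℝ) + 1) := by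
  unfold Near
  have key : ∀ e : Ω × ℚ, |z e.1 - (Rat.cast e.2 : ℚ)| < (j : ℚ) / ((b.2 : ℚ) + 1) ↔
      |(z e.1 : ℝ) - (e.2 : ℝ)| < (j : ℝ) / ((b.2 : ℝ) + 1) := by
    intro e
    rw [← Rat.cast_lt (K := ℝ), Rat.cast_abs, Rat.cast_sub, Rat.cast_div, Rat.cast_add,
      Rat.cast_natCast, Rat.cast_natCast, Rat.cast_one, Rat.cast_id]
  exact ⟨fun h e he => (key e).1 (h e he), fun h e he => (key e).2 (h e he)⟩


theorem covers_real (r : Cd Ω) (b : Finset (Ω × ℚ) × ℕ) (D : Finset (Ω × (Finset (Ω × ℚ) × ℕ)))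
    (h : Covers r b D) (x : Ω → ℝ) (hx : Hull ℝ r.A r.v x) (hb : Near 1 b x) :
    ∃ e ∈ D, Near 3 e.2 x := by
  obtain ⟨δ₁, h₁, h₁'⟩ := j27997_min b.1
    (fun e => ((1 : ℕ) : ℝ) / ((b.2 : ℝ) + 1) - |x e.1 - (e.2 : ℝ)|)
    (fun e he => sub_pos.2 (hb e he))
  obtain ⟨δ₂, h₂, h₂'⟩ := j27997_min D (fun e => 1 / ((e.2.2 : ℝ) + 1))
    (fun e _ => one_div_pos.2 (by positivity))
  obtain ⟨z, hz, hzx⟩ := hull_approx r.A r.v x hx (min δ₁ δ₂) (lt_min h₁ h₂)
  have hn : Near 1 b z := by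
    rw [j27997_near]
    intro e he
    have a1 := h₁' e he
    have a2 := (hzx e.1).trans_le (min_le_left _ _)
    have a3 : |(z e.1 : ℝ) - (e.2 : ℝ)| ≤ |(z e.1 : ℝ) - x e.1| + |x e.1 - (e.2 : ℝ)| :=
      abs_sub_le _ _ _
    linarith
  obtain ⟨e, he, hne⟩ := h z hz hn
  refine ⟨e, he, ?_⟩
  rw [j27997_near] at hne
  intro p hp
  have a1 := hne p hp
  have a2 := (hzx p.1).trans_le (min_le_right _ _)
  have a3 : |x p.1 - (p.2 : ℝ)| ≤ |x p.1 - (z p.1 : ℝ)| + |(z p.1 : ℝ) - (p.2 : ℝ)| :=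
    abs_sub_le _ _ _
  rw [abs_sub_comm (x p.1) (z p.1 : ℝ)] at a3
  have a4 := h₂' e he
  have a5 : ((3 : ℕ) : ℝ) / ((e.2.2 : ℝ) + 1) =
      ((2 : ℕ) : ℝ) / ((e.2.2 : ℝ) + 1) + 1 / ((e.2.2 : ℝ) + 1) := by
    push_cast
    ring
  rw [a5]
  linarith


theorem apart_real (r : Cd Ω) (a b : Ω) (h : Apart r a b) (x : Ω → ℝ) (hx : Hull ℝ r.A r.v x) :
    x a + x b ≤ 1 := by
  by_contra hcon
  have hcon' : 1 < x a + x b := not_le.mp hcon
  obtain ⟨z', hz', hclose⟩ := hull_approx r.A r.v x hx ((x a + x b - 1) / 2) (by linarith)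
  have h1 : z' a + z' b ≤ 1 := h z' hz'
  have h2 : (z' a : ℝ) + (z' b : ℝ) ≤ 1 := by exact_mod_cast h1
  have ha := (abs_lt.mp (hclose a)).1
  have hb := (abs_lt.mp (hclose b)).1
  linarith

/-- The convex compactum given by a set of finite approximations. -/
def KSet (G : Set (Cd Ω)) : Set (Ω → ℝ) :=
  {x | (∀ a, x a ∈ Set.Icc (0 : ℝ) 1) ∧ ∀ p ∈ G, Hull ℝ p.A p.v x}


theorem K_compact (G : Set (Cd Ω)) : IsCompact (KSet G) := by
  have h1 : IsCompact (Set.pi Set.univ (fun _ : Ω => Set.Icc (0 : ℝ) 1)) :=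
    isCompact_univ_pi (fun _ => isCompact_Icc)
  have h2 : KSet G = (Set.pi Set.univ (fun _ : Ω => Set.Icc (0 : ℝ) 1)) ∩
      ⋂ p ∈ G, {z : Ω → ℝ | Hull ℝ p.A p.v z} := by
    ext x
    constructor
    · rintro ⟨ha, hb⟩
      exact ⟨fun a _ => ha a, Set.mem_iInter₂.2 (fun p hp => hb p hp)⟩
    · rintro ⟨ha, hb⟩
      exact ⟨fun a => ha a (Set.mem_univ a), fun p hp => Set.mem_iInter₂.1 hb p hp⟩
  rw [h2]
  exact h1.inter_right (isClosed_biInter (fun p _ => hull_closed p.A p.v))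


theorem K_convex (G : Set (Cd Ω)) : Convex ℝ (KSet G) := by
  intro x hx y hy a b ha hb hab
  refine ⟨?_, ?_⟩
  · intro i
    have := convex_Icc (0 : ℝ) 1 (hx.1 i) (hy.1 i) ha hb hab
    simpa using this
  · intro p hp
    exact hull_convex p.A p.v (hx.2 p hp) (hy.2 p hp) ha hb hab


theorem hull_top (r : Cd Ω) (a : Ω) :
    ∃ x : Ω → ℝ, (∀ b, x b ∈ Set.Icc (0 : ℝ) 1) ∧ x a = 1 ∧ Hull ℝ r.A r.v x := by
  classical
  by_cases ha : a ∈ r.A
  · obtain ⟨l, hl⟩ := r.top a ha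
    refine ⟨fun b => if b ≤ a then ((r.v l b : ℚ) : ℝ) else 0, ?_, ?_, ?_⟩
    · intro b
      have h0 : (0 : ℝ) ≤ ((r.v l b : ℚ) : ℝ) := by exact_mod_cast r.nonneg l b
      have h1 : ((r.v l b : ℚ) : ℝ) ≤ 1 := by exact_mod_cast r.le_one l b
      simp only [Set.mem_Icc]
      split_ifs
      · exact ⟨h0, h1⟩
      · exact ⟨le_rfl, zero_le_one⟩
    · simp only [le_refl, if_true, hl]
      norm_num
    · refine ⟨fun i b => if i = l ∧ b ≤ a then 1 else 0, ?_, ?_, ?_, ?_⟩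
      · intro i b _
        dsimp only
        split_ifs
        · exact zero_le_one
        · exact le_rfl
      · intro i b _ c _ hbc
        dsimp only
        by_cases h : i = l ∧ c ≤ a
        · rw [if_pos h, if_pos ⟨h.1, hbc.trans h.2⟩]
        · rw [if_neg h]
          split_ifs
          · exact zero_le_one
          · exact le_rfl
      · intro b _
        by_cases hb : b ≤ a
        · simp [hb]
        · simp [hb]
      · intro b _
        by_cases hb : b ≤ a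
        · simp [hb]
        · simp [hb]
  · refine ⟨fun b => if b = a then 1 else 0, ?_, by simp, ?_⟩
    · intro b
      simp only [Set.mem_Icc]
      split_ifs
      · exact ⟨zero_le_one, le_rfl⟩
      · exact ⟨le_rfl, zero_le_one⟩
    · refine ⟨fun _ _ => 0, fun _ _ _ => le_rfl, fun _ _ _ _ _ _ => le_rfl, by simp, ?_⟩
      intro b hb
      have : b ≠ a := by rintro rfl; exact ha hb
      simp [this]


theorem K_top (G : Set (Cd Ω)) (hG : ∀ p ∈ G, ∀ q ∈ G, ∃ r ∈ G, Refines r p ∧ Refines r q)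
    (a : Ω) : ∃ x ∈ KSet G, x a = 1 := by
  rcases G.eq_empty_or_nonempty with rfl | hne
  · exact ⟨fun _ => 1, ⟨fun b => ⟨zero_le_one, le_rfl⟩,
      fun p hp => absurd hp (Set.notMem_empty p)⟩, rfl⟩
  have hne2 : Nonempty ↥G := hne.to_subtype
  let t : ↥G → Set (Ω → ℝ) := fun r =>
    ({x | ∀ b, x b ∈ Set.Icc (0 : ℝ) 1} ∩ {x | x a = 1}) ∩ {x | Hull ℝ r.1.A r.1.v x}
  have hcube : IsCompact {x : Ω → ℝ | ∀ b, x b ∈ Set.Icc (0 : ℝ) 1} := by
    have := isCompact_univ_pi (fun _ : Ω => isCompact_Icc (a := (0 : ℝ)) (b := 1))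
    have e : {x : Ω → ℝ | ∀ b, x b ∈ Set.Icc (0 : ℝ) 1} =
        Set.univ.pi fun _ : Ω => Set.Icc (0 : ℝ) 1 := by
      ext x
      rw [Set.mem_univ_pi]
      rfl
    rw [e]
    exact this
  have hcl : ∀ r, IsClosed (t r) := by
    intro r
    refine (hcube.isClosed.inter ?_).inter (hull_closed r.1.A r.1.v)
    exact isClosed_eq (continuous_apply a) continuous_const
  have hcp : ∀ r, IsCompact (t r) := fun r =>
    hcube.of_isClosed_subset (hcl r) fun x hx => hx.1.1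
  have hnon : ∀ r, (t r).Nonempty := by
    intro r
    obtain ⟨x, hx1, hx2, hx3⟩ := hull_top r.1 a
    exact ⟨x, ⟨hx1, hx2⟩, hx3⟩
  have hdir : Directed (· ⊇ ·) t := by
    intro p q
    obtain ⟨r, hr, h1, h2⟩ := hG p.1 p.2 q.1 q.2
    refine ⟨⟨r, hr⟩, ?_, ?_⟩
    · rintro x ⟨⟨hx1, hx2⟩, hx3⟩
      exact ⟨⟨hx1, hx2⟩, hull_trans h1.1 h1.2 hx3⟩
    · rintro x ⟨⟨hx1, hx2⟩, hx3⟩
      exact ⟨⟨hx1, hx2⟩, hull_trans h2.1 h2.2 hx3⟩
  obtain ⟨x, hx⟩ :=
    IsCompact.nonempty_iInter_of_directed_nonempty_isCompact_isClosed t hdir hnon hcp hcl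
  rw [Set.mem_iInter] at hx
  obtain ⟨r0⟩ := hne2
  exact ⟨x, ⟨(hx r0).1.1, fun p hp => (hx ⟨p, hp⟩).2⟩, (hx r0).1.2⟩


theorem exists_box (x : Ω → ℝ) (U : Set (Ω → ℝ)) (hU : IsOpen U) (hx : x ∈ U) :
    ∃ b : Finset (Ω × ℚ) × ℕ, Near 1 b x ∧ ∀ y : Ω → ℝ, Near 3 b y → y ∈ U := by
  classical
  obtain ⟨I, u, hu, hsub⟩ := isOpen_pi_iff.1 hU x hx
  have hε : ∀ a : Ω, ∃ ε : ℝ, 0 < ε ∧ (a ∈ I → Metric.ball (x a) ε ⊆ u a) := by
    intro a
    by_cases ha : a ∈ I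
    · obtain ⟨ε, hε, hb⟩ := Metric.isOpen_iff.1 (hu a ha).1 (x a) (hu a ha).2
      exact ⟨ε, hε, fun _ => hb⟩
    · exact ⟨1, one_pos, fun h => absurd h ha⟩
  choose ε hε0 hεb using hε
  have hk : ∀ a : Ω, ∃ k : ℕ, (4 : ℝ) / ((k : ℝ) + 1) < ε a := by
    intro a
    obtain ⟨k, hk⟩ := exists_nat_gt (4 / ε a)
    refine ⟨k, ?_⟩
    have h1 : (0 : ℝ) < (k : ℝ) + 1 := by positivity
    rw [div_lt_iff₀ h1]
    rw [div_lt_iff₀ (hε0 a)] at hk
    nlinarith [hε0 a]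
  choose kk hkk using hk
  set k := I.sup kk with hkdef
  have hk1 : (0 : ℝ) < (k : ℝ) + 1 := by positivity
  have hk2 : ∀ a ∈ I, (4 : ℝ) / ((k : ℝ) + 1) < ε a := by
    intro a ha
    refine lt_of_le_of_lt ?_ (hkk a)
    have h1 : (0 : ℝ) < (kk a : ℝ) + 1 := by positivity
    apply div_le_div_of_nonneg_left (by norm_num) h1
    have : kk a ≤ k := Finset.le_sup ha
    have h2 : (kk a : ℝ) ≤ (k : ℝ) := by exact_mod_cast this
    linarith
  have hq : ∀ a : Ω, ∃ q : ℚ, |x a - (q : ℝ)| < 1 / ((k : ℝ) + 1) := by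
    intro a
    obtain ⟨q, hq⟩ := exists_rat_near (x a) (show (0 : ℝ) < 1 / ((k : ℝ) + 1) by positivity)
    exact ⟨q, hq⟩
  choose q hq using hq
  refine ⟨(I.image (fun a => (a, q a)), k), ?_, ?_⟩
  · intro e he
    simp only [Finset.mem_image] at he
    obtain ⟨a, ha, rfl⟩ := he
    simpa using hq a
  · intro y hy
    apply hsub
    intro a ha
    have ha' : a ∈ I := ha
    have h1 := hy (a, q a) (Finset.mem_image.2 ⟨a, ha', rfl⟩)
    simp only [Nat.cast_ofNat] at h1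
    have h2 := hq a
    apply hεb a ha'
    rw [Metric.mem_ball, Real.dist_eq]
    have h3 : |y a - x a| ≤ |y a - (q a : ℝ)| + |x a - (q a : ℝ)| := by
      have : y a - x a = (y a - (q a : ℝ)) - (x a - (q a : ℝ)) := by ring
      rw [this]; exact abs_sub _ _
    have h4 : (3 : ℝ) / ((k : ℝ) + 1) + 1 / ((k : ℝ) + 1) = 4 / ((k : ℝ) + 1) := by ring
    have h5 := hk2 a ha'
    linarith


theorem K_lindelof [WellFoundedLT Ω] (hc : ∀ x : Ω, (Set.Iio x).Countable) (G : Set (Cd Ω))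
    (h2 : ∀ c : Ω → Finset (Ω × ℚ) × ℕ, ∃ (β : Ω) (D : Finset (Ω × (Finset (Ω × ℚ) × ℕ))),
      ∃ r ∈ G, (∀ e ∈ D, e.1 < β ∧ c e.1 = e.2) ∧ Covers r (c β) D)
    (S : Set (Ω → ℝ)) (hS : S ⊆ KSet G) (U : (Ω → ℝ) → Set (Ω → ℝ))
    (hU : ∀ x ∈ S, IsOpen (U x) ∧ x ∈ U x) :
    ∃ T ⊆ S, T.Countable ∧ S ⊆ ⋃ t ∈ T, U t := by
  by_contra hcon
  have hno : ∀ T : Set (Ω → ℝ), T ⊆ S → T.Countable → ∃ y : Ω → ℝ, y ∈ S ∧ ∀ t ∈ T, y ∉ U t := by
    intro T hT hTc
    by_contra h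
    apply hcon
    refine ⟨T, hT, hTc, fun y hy => ?_⟩
    by_contra hy'
    apply h
    refine ⟨y, hy, fun t ht hyt => hy' ?_⟩
    exact Set.mem_iUnion₂.2 ⟨t, ht, hyt⟩
  choose! F hF1 hF2 using hno
  have hwf : WellFounded (fun a b : Ω => a < b) := wellFounded_lt
  obtain ⟨x, hx⟩ : ∃ x : Ω → (Ω → ℝ), ∀ β, x β = F (Set.range fun α : Set.Iio β => x α.1) := by
    refine ⟨hwf.fix (fun β ih => F (Set.range fun α : Set.Iio β => ih α.1 α.2)), fun β => ?_⟩
    rw [WellFounded.fix_eq]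
  have hcount : ∀ β, (Set.range fun α : Set.Iio β => x α.1).Countable := by
    intro β
    have : Countable (Set.Iio β) := (hc β).to_subtype
    exact Set.countable_range _
  have hxS : ∀ β, x β ∈ S := by
    intro β
    induction β using hwf.induction with
    | _ β ih =>
      rw [hx β]
      refine hF1 _ ?_ (hcount β)
      rintro _ ⟨α, rfl⟩
      exact ih α.1 α.2
  have hxU : ∀ β α, α < β → x β ∉ U (x α) := by
    intro β α hα
    rw [hx β]
    refine hF2 _ ?_ (hcount β) (x α) ⟨⟨α, hα⟩, rfl⟩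
    rintro _ ⟨α, rfl⟩
    exact hxS α.1
  choose c hc1 hc2 using fun β => exists_box (x β) (U (x β)) (hU _ (hxS β)).1 (hU _ (hxS β)).2
  obtain ⟨β, D, r, hr, hD, hcov⟩ := h2 c
  obtain ⟨e, he, hne⟩ := covers_real r (c β) D hcov (x β) ((hS (hxS β)).2 r hr) (hc1 β)
  have h3 := hD e he
  rw [← h3.2] at hne
  exact hxU β e.1 h3.1 (hc2 e.1 _ hne)


theorem perfect_of_lindelof {X : Type} [TopologicalSpace X] [T2Space X] [RegularSpace X] (K : Set X)
    (hK : IsCompact K)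
    (h : ∀ S ⊆ K, ∀ U : X → Set X, (∀ x ∈ S, IsOpen (U x) ∧ x ∈ U x) →
      ∃ T ⊆ S, T.Countable ∧ S ⊆ ⋃ t ∈ T, U t) : PerfectlyNormalSpace K := by
  haveI : CompactSpace K := isCompact_iff_compactSpace.1 hK
  refine { closed_gdelta := ?_ }
  intro C hC
  have hC' : IsClosed (Subtype.val '' C : Set X) :=
    (hC.isCompact.image continuous_subtype_val).isClosed
  have hU : ∀ x : X, ∃ U : Set X, x ∈ K \ (Subtype.val '' C) → IsOpen U ∧ x ∈ U ∧
      closure U ⊆ (Subtype.val '' C : Set X)ᶜ := by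
    intro x
    by_cases hx : x ∈ K \ (Subtype.val '' C)
    · obtain ⟨t, ht, htc, hts⟩ := exists_mem_nhds_isClosed_subset (hC'.isOpen_compl.mem_nhds hx.2)
      exact ⟨interior t, fun _ => ⟨isOpen_interior, mem_interior_iff_mem_nhds.2 ht,
        (closure_minimal interior_subset htc).trans hts⟩⟩
    · exact ⟨∅, fun h => absurd h hx⟩
  choose U hU using hU
  obtain ⟨T, hTS, hTc, hcov⟩ := h (K \ (Subtype.val '' C)) Set.diff_subset U
    (fun x hx => ⟨(hU x hx).1, (hU x hx).2.1⟩)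
  have hEq : C = ⋂ t ∈ T, (Subtype.val ⁻¹' (closure (U t)) : Set K)ᶜ := by
    ext x
    simp only [Set.mem_iInter, Set.mem_compl_iff, Set.mem_preimage]
    constructor
    · intro hx t ht hxt
      exact (hU t (hTS ht)).2.2 hxt ⟨x, hx, rfl⟩
    · intro hx
      by_contra hxC
      have hxS : (x : X) ∈ K \ (Subtype.val '' C) := by
        refine ⟨x.2, ?_⟩
        rintro ⟨y, hy, hyx⟩
        exact hxC (Subtype.ext hyx ▸ hy)
      obtain ⟨t, ht, hxt⟩ := Set.mem_iUnion₂.1 (hcov hxS)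
      exact hx t ht (subset_closure hxt)
  rw [hEq]
  exact IsGδ.biInter hTc fun t _ =>
    (isClosed_closure.preimage continuous_subtype_val).isOpen_compl.isGδ


theorem not_separable [Uncountable Ω] (hc : ∀ x : Ω, (Set.Iio x).Countable) (G : Set (Cd Ω))
    (hG : ∀ p ∈ G, ∀ q ∈ G, ∃ r ∈ G, Refines r p ∧ Refines r q)
    (h3 : ∀ S : Set Ω, (∀ x, ∃ a ∈ S, x < a) →
      ∃ a ∈ S, ∃ b ∈ S, ∃ r ∈ G, a ≠ b ∧ Apart r a b) :
    ¬ TopologicalSpace.SeparableSpace (KSet G) := by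
  rintro ⟨D, hDc, hDd⟩
  choose x hxK hx1 using K_top G hG
  have hex : ∀ a : Ω, ∃ d ∈ D, (1 / 2 : ℝ) < (d : Ω → ℝ) a := by
    intro a
    have hopen : IsOpen {y : KSet G | (1 / 2 : ℝ) < (y : Ω → ℝ) a} :=
      isOpen_lt continuous_const ((continuous_apply a).comp continuous_subtype_val)
    have hne : ({y : KSet G | (1 / 2 : ℝ) < (y : Ω → ℝ) a}).Nonempty := by
      refine ⟨⟨x a, hxK a⟩, ?_⟩
      show (1 / 2 : ℝ) < x a a
      rw [hx1 a]
      norm_num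
    obtain ⟨d, hdD, hd⟩ := hDd.exists_mem_open hopen hne
    first
      | exact ⟨d, hdD, hd⟩
      | exact ⟨d, hd, hdD⟩
  choose d hdD hd using hex
  have hunc : ∃ d0 ∈ D, ¬ ({a : Ω | d a = d0}).Countable := by
    by_contra hcon
    push Not at hcon
    have h1 : (⋃ d0 ∈ D, {a : Ω | d a = d0}).Countable := hDc.biUnion hcon
    have h2 : (Set.univ : Set Ω).Countable := by
      refine h1.mono (fun a _ => ?_)
      refine Set.mem_iUnion₂.2 ⟨d a, hdD a, rfl⟩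
    exact Set.not_countable_univ h2
  obtain ⟨d0, -, hunc⟩ := hunc
  have hS : ∀ y : Ω, ∃ a ∈ {a : Ω | d a = d0}, y < a := by
    intro y
    by_contra hcon
    push Not at hcon
    apply hunc
    refine ((hc y).union (Set.countable_singleton y)).mono ?_
    intro a ha
    rcases lt_or_eq_of_le (hcon a ha) with h | h
    · exact Or.inl h
    · exact Or.inr h
  obtain ⟨a, ha, b, hb, r, hr, hab, hap⟩ := h3 _ hS
  have h5 := apart_real r a b hap (d0 : Ω → ℝ) (d0.2.2 r hr)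
  have ha2 : d a = d0 := ha
  have hb2 : d b = d0 := hb
  have ha' := hd a
  have hb' := hd b
  rw [ha2] at ha'
  rw [hb2] at hb'
  linarith

theorem zfc (Ω : Type) [LinearOrder Ω] [WellFoundedLT Ω] [Uncountable Ω]
    (hc : ∀ x : Ω, (Set.Iio x).Countable) (h : ConvexPrinciple Ω) : ¬ PositiveQ2 := by
  obtain ⟨G, hG, h2, h3⟩ := h
  intro hQ
  exact not_separable hc G hG h3 (hQ (Ω → ℝ) (KSet G) (K_compact G) (K_convex G)
    (perfect_of_lindelof _ (K_compact G) (K_lindelof hc G h2)))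

end Zfc

end Pool.Agent.Helper161.Cvx
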