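import Mathlib
import Pool.Agent.Helper161.Cvx.Zfc

/-!
# The finite approximations force the principle
-/

set_option autoImplicit false
set_option linter.unusedSectionVars false
set_option linter.unusedVariables false

namespace Pool.Agent.Helper161.Cvx

open Cardinal

section LangLemmas

universe v w

variable {P : Type} [Preorder P]

theorem mem_fex {ι : Sort v} {φ : ι → Set P} {p : P} :
    p ∈ fex φ ↔ ∀ q ≤ p, ∃ r ≤ q, ∃ i, r ∈ φ i := by
  simp only [fex, fnot, fall, Set.mem_ofPred_eq, not_forall, not_not]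
  constructor
  · intro h q hq
    obtain ⟨i, r, hr, h'⟩ := h q hq
    exact ⟨r, hr, i, h'⟩
  · intro h q hq
    obtain ⟨r, hr, i, h'⟩ := h q hq
    exact ⟨i, r, hr, h'⟩

theorem mem_fimp {φ ψ : Set P} {p : P} :
    p ∈ fimp φ ψ ↔ ∀ q ≤ p, q ∈ φ → ∃ r ≤ q, r ∈ ψ := by
  simp only [fimp, fnot, fand, Set.mem_ofPred_eq, not_and, not_forall, not_not]
  constructor
  · intro h q hq h'
    obtain ⟨r, hr, h''⟩ := h q hq h'
    exact ⟨r, hr, h''⟩
  · intro h q hq h'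
    obtain ⟨r, hr, h''⟩ := h q hq h'
    exact ⟨r, hr, h''⟩

theorem mem_fnot {φ : Set P} {p : P} : p ∈ fnot φ ↔ ∀ q ≤ p, q ∉ φ := Iff.rfl

theorem mem_fand {φ ψ : Set P} {p : P} : p ∈ fand φ ψ ↔ p ∈ φ ∧ p ∈ ψ := Iff.rfl

theorem mem_fall {ι : Sort v} {φ : ι → Set P} {p : P} : p ∈ fall φ ↔ ∀ i, p ∈ φ i := Iff.rfl

theorem mem_fground {h : Prop} {p : P} : p ∈ fground (P := P) h ↔ h := Iff.rfl

/-- The statement `φ` is preserved by passing to stronger conditions. -/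
def Down (φ : Set P) : Prop := ∀ p ∈ φ, ∀ q ≤ p, q ∈ φ

/-- The statement `φ` is forced if it is forced by densely many stronger conditions. -/
def Reglr (φ : Set P) : Prop := Down φ ∧ ∀ p, (∀ q ≤ p, ∃ r ≤ q, r ∈ φ) → p ∈ φ

theorem reglr_fnot {φ : Set P} (h : Down φ) : Reglr (fnot φ) :=
  ⟨fun _ hp _ hq r hr => hp r (hr.trans hq), fun p hp q hq hφ => by
    obtain ⟨r, hr, hr'⟩ := hp q hq
    exact hr' r le_rfl (h q hφ r hr)⟩

theorem down_fnot (φ : Set P) : Down (fnot φ) :=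
  fun _ hp _ hq r hr => hp r (hr.trans hq)

theorem down_fand {φ ψ : Set P} (h : Down φ) (h' : Down ψ) : Down (fand φ ψ) :=
  fun _ hp _ hq => ⟨h _ hp.1 _ hq, h' _ hp.2 _ hq⟩

theorem down_fall {ι : Sort v} {φ : ι → Set P} (h : ∀ i, Down (φ i)) : Down (fall φ) :=
  fun _ hp _ hq i => h i _ (hp i) _ hq

theorem reglr_fand {φ ψ : Set P} (h : Reglr φ) (h' : Reglr ψ) : Reglr (fand φ ψ) :=
  ⟨down_fand h.1 h'.1, fun p hp => ⟨h.2 p fun q hq => (hp q hq).imp fun _ hr => ⟨hr.1, hr.2.1⟩,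
    h'.2 p fun q hq => (hp q hq).imp fun _ hr => ⟨hr.1, hr.2.2⟩⟩⟩

theorem reglr_fall {ι : Sort v} {φ : ι → Set P} (h : ∀ i, Reglr (φ i)) : Reglr (fall φ) :=
  ⟨down_fall fun i => (h i).1, fun p hp i => (h i).2 p fun q hq =>
    (hp q hq).imp fun _ hr => ⟨hr.1, hr.2 i⟩⟩

theorem down_fex {ι : Sort v} (φ : ι → Set P) : Down (fex φ) := down_fnot _

theorem reglr_fex {ι : Sort v} (φ : ι → Set P) : Reglr (fex φ) :=
  reglr_fnot (down_fall fun _ => down_fnot _)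

theorem down_fimp (φ ψ : Set P) : Down (fimp φ ψ) := down_fnot _

theorem reglr_fimp {φ : Set P} (h : Down φ) (ψ : Set P) : Reglr (fimp φ ψ) :=
  reglr_fnot (down_fand h (down_fnot _))

theorem down_fground (h : Prop) : Down (fground (P := P) h) := fun _ hp _ _ => hp

theorem reglr_fground (h : Prop) : Reglr (fground (P := P) h) :=
  ⟨down_fground h, fun p hp => by
    obtain ⟨r, _, hr⟩ := hp p le_rfl
    exact hr⟩

theorem down_meets (N : Set P) : Down (meets N) :=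
  fun _ hp _ hq r hr => hp r (hr.trans hq)

theorem reglr_meets (N : Set P) : Reglr (meets N) :=
  ⟨down_meets N, fun p hp q hq => by
    obtain ⟨r, hr, hr'⟩ := hp q hq
    obtain ⟨t, ht, s, hs, hts⟩ := hr' r le_rfl
    exact ⟨t, ht.trans hr, s, hs, hts⟩⟩

theorem reglr_IsFun {X : Type v} {Y : Type w} (R : X → Y → Set P) : Reglr (IsFun R) :=
  reglr_fand (reglr_fall fun _ => reglr_fex _)
    (reglr_fall fun _ => reglr_fall fun _ => reglr_fall fun _ =>
      reglr_fimp (down_fand (down_meets _) (down_meets _)) _)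

theorem down_IsFun {X : Type v} {Y : Type w} (R : X → Y → Set P) : Down (IsFun R) :=
  (reglr_IsFun R).1

theorem mem_fex_of_mem {ι : Sort v} {φ : ι → Set P} {p : P} (i : ι) (hd : Down (φ i))
    (h : p ∈ φ i) : p ∈ fex φ :=
  mem_fex.2 fun q hq => ⟨q, le_rfl, i, hd _ h _ hq⟩

theorem meets_of_mem {N : Set P} {p : P} (h : p ∈ N) : p ∈ meets N :=
  fun q hq => ⟨q, le_rfl, p, h, hq⟩

/-- for a set closed downwards -/
theorem exists_of_meets {N : Set P} (hN : Down N) {p : P} (h : p ∈ meets N) :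
    ∃ q ≤ p, q ∈ N := by
  obtain ⟨r, hr, s, hs, hle⟩ := h p le_rfl
  exact ⟨r, hr, hN s hs r hle⟩

theorem IsFun.total {X : Type v} {Y : Type w} {R : X → Y → Set P} {p : P} (h : p ∈ IsFun R)
    (x : X) : ∃ q ≤ p, ∃ y, q ∈ meets (R x y) := mem_fex.1 (h.1 x) p le_rfl

theorem IsFun.unique {X : Type v} {Y : Type w} {R : X → Y → Set P} {p : P} (h : p ∈ IsFun R)
    {x : X} {y y' : Y} (h1 : p ∈ meets (R x y)) (h2 : p ∈ meets (R x y')) : y = y' := by
  obtain ⟨r, _, hr⟩ := mem_fimp.1 (h.2 x y y') p le_rfl ⟨h1, h2⟩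
  exact hr

end LangLemmas

theorem tf_fex {ι : Sort*} (φ : ι → Set Unit) : (() ∈ fex φ) ↔ ∃ i, () ∈ φ i := by
  rw [mem_fex]
  constructor
  · intro h
    obtain ⟨r, _, i, hi⟩ := h () le_rfl
    exact ⟨i, hi⟩
  · rintro ⟨i, hi⟩ q _
    exact ⟨(), le_rfl, i, hi⟩

theorem tf_fimp (φ ψ : Set Unit) : (() ∈ fimp φ ψ) ↔ (() ∈ φ → () ∈ ψ) := by
  rw [mem_fimp]
  constructor
  · intro h hφ
    obtain ⟨r, _, hr⟩ := h () le_rfl hφ
    exact hr
  · intro h q _ hq
    exact ⟨(), le_rfl, h hq⟩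

theorem tf_fnot (φ : Set Unit) : (() ∈ fnot φ) ↔ () ∉ φ := by
  rw [mem_fnot]
  exact ⟨fun h => h () le_rfl, fun h q _ => h⟩

theorem tf_meets (N : Set Unit) : (() ∈ meets N) ↔ () ∈ N := by
  constructor
  · intro h
    obtain ⟨r, _, s, hs, _⟩ := h () le_rfl
    exact hs
  · exact meets_of_mem

theorem trivial_forces_aux (Ω : Type) [LinearOrder Ω] :
    (() ∈ ForcesConvexPrinciple Unit Ω) ↔ ∃ G : Cd Ω → Set Unit,
      (∀ p q, () ∈ G p ∧ () ∈ G q → ∃ r, () ∈ G r ∧ (Refines r p ∧ Refines r q)) ∧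
      (∀ c : Ω → Finset (Ω × ℚ) × ℕ → Set Unit, ((∀ x, ∃ y, () ∈ c x y) ∧
          (∀ x y y', () ∈ c x y ∧ () ∈ c x y' → y = y')) →
        ∃ (β : Ω) (D : Finset (Ω × (Finset (Ω × ℚ) × ℕ))) (r : Cd Ω)
          (b : Finset (Ω × ℚ) × ℕ), () ∈ G r ∧
            ((∀ e, e ∈ D → (e.1 < β ∧ () ∈ c e.1 e.2)) ∧ (() ∈ c β b ∧ Covers r b D))) ∧
      (∀ S : Ω → Set Unit, (∀ x, ∃ a, () ∈ S a ∧ x < a) →
        ∃ a b r, () ∈ S a ∧ (() ∈ S b ∧ (() ∈ G r ∧ (a ≠ b ∧ Apart r a b)))) := by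
  simp only [ForcesConvexPrinciple, FDirected, FCovers, FUnbounded, FApart, IsFun, tf_fex,
    mem_fand, mem_fall, tf_fimp, tf_meets, mem_fground]


theorem trivial_forces (Ω : Type) [LinearOrder Ω] :
    (() ∈ ForcesConvexPrinciple Unit Ω) ↔ ConvexPrinciple Ω := by
  rw [trivial_forces_aux]
  constructor
  · rintro ⟨G, h1, h2, h3⟩
    refine ⟨{p | () ∈ G p}, ?_, ?_, ?_⟩
    · intro p hp q hq
      obtain ⟨r, hr, hr'⟩ := h1 p q ⟨hp, hq⟩
      exact ⟨r, hr, hr'⟩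
    · intro c
      obtain ⟨β, D, r, b, hr, hD, hb, hcov⟩ := h2 (fun β b => {_u | c β = b})
        ⟨fun x => ⟨c x, rfl⟩, fun x y y' h => by
          have e1 : c x = y := h.1
          have e2 : c x = y' := h.2
          exact e1.symm.trans e2⟩
      have hb' : c β = b := hb
      subst hb'
      exact ⟨β, D, r, hr, fun e he => ⟨(hD e he).1, (hD e he).2⟩, hcov⟩
    · intro S hS
      obtain ⟨a, b, r, ha, hb, hr, hne, hap⟩ := h3 (fun a => {_u | a ∈ S}) (fun x => by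
        obtain ⟨a, ha, hxa⟩ := hS x
        exact ⟨a, ha, hxa⟩)
      exact ⟨a, ha, b, hb, r, hr, hne, hap⟩
  · rintro ⟨G, h1, h2, h3⟩
    refine ⟨fun p => {_u | p ∈ G}, ?_, ?_, ?_⟩
    · rintro p q ⟨hp, hq⟩
      obtain ⟨r, hr, hr'⟩ := h1 p hp q hq
      exact ⟨r, hr, hr'⟩
    · rintro c ⟨hc1, hc2⟩
      choose f hf using hc1
      obtain ⟨β, D, r, hr, hD, hcov⟩ := h2 f
      refine ⟨β, D, r, f β, hr, fun e he => ⟨(hD e he).1, ?_⟩, hf β, hcov⟩
      rw [← (hD e he).2]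
      exact hf e.1
    · intro S hS
      obtain ⟨a, ha, b, hb, r, hr, hne, hap⟩ := h3 {a | () ∈ S a} (fun x => by
        obtain ⟨a, ha, hxa⟩ := hS x
        exact ⟨a, ha, hxa⟩)
      exact ⟨a, b, r, ha, hb, hr, hne, hap⟩

section Order

variable {Ω : Type} [LinearOrder Ω]

instance : Preorder (Cd Ω) where
  le r p := Refines r p
  le_refl p := ⟨Finset.Subset.refl _, fun g => hull_self _ _ _⟩
  le_trans a b c h h' := ⟨h'.1.trans h.1, fun g => hull_trans h'.1 h'.2 (h.2 g)⟩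

theorem Cd.le_def {r p : Cd Ω} : r ≤ p ↔ Refines r p := Iff.rfl

instance : Nonempty (Cd Ω) :=
  ⟨⟨∅, 0, fun _ _ => 0, fun _ _ _ => rfl, fun _ _ => le_rfl, fun _ _ => zero_le_one,
    fun a ha => by simp at ha⟩⟩

theorem add_coord_congr {ι : Type} [Fintype ι] (A : Finset Ω) (v : ι → Ω → ℚ) (z z' : Ω → ℚ)
    (h : ∀ b ∈ A, z' b = z b) (hz : Hull ℚ A v z) : Hull ℚ A v z' := by
  obtain ⟨u, h1, h2, h3, h4⟩ := hz
  exact ⟨u, h1, h2, h3, fun b hb => (h b hb).trans (h4 b hb)⟩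


theorem add_coord (p : Cd Ω) (a : Ω) : ∃ q ≤ p, a ∈ q.A := by
  classical
  by_cases ha : a ∈ p.A
  · exact ⟨p, le_rfl, ha⟩
  set w : Fin (p.N + 1) → Ω → ℚ :=
    Fin.snoc (α := fun _ => Ω → ℚ) (fun l => Function.update (p.v l) a 0)
      (fun b => if b = a then 1 else 0) with hw
  have hl : w (Fin.last p.N) = fun b => if b = a then 1 else 0 := by
    rw [hw, Fin.snoc_last]
  have hc : ∀ l : Fin p.N, w l.castSucc = Function.update (p.v l) a 0 := by
    intro l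
    rw [hw, Fin.snoc_castSucc]
  refine ⟨⟨insert a p.A, p.N + 1, w, ?_, ?_, ?_, ?_⟩, ⟨Finset.subset_insert _ _, ?_⟩,
    Finset.mem_insert_self _ _⟩
  · intro l b hb
    rw [Finset.mem_insert, not_or] at hb
    refine Fin.lastCases ?_ (fun l => ?_) l
    · rw [hl]
      exact if_neg hb.1
    · rw [hc, Function.update_of_ne hb.1]
      exact p.supp l b hb.2
  · intro l b
    refine Fin.lastCases ?_ (fun l => ?_) l
    · rw [hl]
      beta_reduce
      split_ifs <;> norm_num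
    · rw [hc]
      by_cases hb : b = a
      · rw [hb, Function.update_self]
      · rw [Function.update_of_ne hb]
        exact p.nonneg l b
  · intro l b
    refine Fin.lastCases ?_ (fun l => ?_) l
    · rw [hl]
      beta_reduce
      split_ifs <;> norm_num
    · rw [hc]
      by_cases hb : b = a
      · rw [hb, Function.update_self]
        norm_num
      · rw [Function.update_of_ne hb]
        exact p.le_one l b
  · intro b hb
    by_cases hba : b = a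
    · exact ⟨Fin.last p.N, by rw [hl, hba]; simp⟩
    · rw [Finset.mem_insert] at hb
      obtain ⟨l, hl'⟩ := p.top b (hb.resolve_left hba)
      exact ⟨l.castSucc, by rw [hc, Function.update_of_ne hba, hl']⟩
  · intro g
    have hne : ∀ b ∈ p.A, b ≠ a := fun b hb h => ha (h ▸ hb)
    change Hull ℚ p.A p.v (w g)
    refine Fin.lastCases ?_ (fun l => ?_) g
    · rw [hl]
      refine ⟨fun _ _ => 0, fun _ _ _ => le_rfl, fun _ _ _ _ _ _ => le_rfl, fun b _ => ?_,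
        fun b hb => ?_⟩
      · simp
      · simp [hne b hb]
    · rw [hc]
      refine add_coord_congr p.A p.v (p.v l) _ (fun b hb => ?_) (hull_self _ _ l)
      rw [Function.update_of_ne (hne b hb)]


theorem add_coords (p : Cd Ω) (F : Finset Ω) : ∃ q ≤ p, F ⊆ q.A := by
  classical
  induction F using Finset.induction_on with
  | empty => exact ⟨p, le_rfl, Finset.empty_subset _⟩
  | insert a F _ ih =>
    obtain ⟨q, hq, hF⟩ := ih
    obtain ⟨r, hr, ha⟩ := add_coord q a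
    exact ⟨r, hr.trans hq, Finset.insert_subset ha (hF.trans hr.1)⟩

/-- An isomorphism type of a condition. -/
structure Ty where
  n : ℕ
  N : ℕ
  W : Fin N → Fin n → ℚ
  nonneg : ∀ l t, 0 ≤ W l t
  le_one : ∀ l t, W l t ≤ 1
  top : ∀ t, ∃ l, W l t = 1

open Classical in
/-- The condition of type `τ` with the coordinates `e 0 < e 1 < ...`. -/
noncomputable def std (τ : Ty) (e : Fin τ.n ↪o Ω) : Cd Ω where
  A := Finset.univ.map e.toEmbedding
  N := τ.N
  v l a := if h : ∃ t, e t = a then τ.W l h.choose else 0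
  supp l a ha := by
    have h : ¬ ∃ t, e t = a := by
      rintro ⟨t, ht⟩
      exact ha (Finset.mem_map.2 ⟨t, Finset.mem_univ _, ht⟩)
    simp only [dif_neg h]
  nonneg l a := by
    by_cases h : ∃ t, e t = a
    · simp only [dif_pos h]; exact τ.nonneg _ _
    · simp only [dif_neg h]; exact le_rfl
  le_one l a := by
    by_cases h : ∃ t, e t = a
    · simp only [dif_pos h]; exact τ.le_one _ _
    · simp only [dif_neg h]; exact zero_le_one
  top a ha := by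
    have h : ∃ t, e t = a := by
      obtain ⟨t, _, ht⟩ := Finset.mem_map.1 ha
      exact ⟨t, ht⟩
    obtain ⟨l, hl⟩ := τ.top h.choose
    exact ⟨l, by simp only [dif_pos h]; exact hl⟩

theorem std_v (τ : Ty) (e : Fin τ.n ↪o Ω) (l : Fin τ.N) (t : Fin τ.n) :
    (std τ e).v l (e t) = τ.W l t := by
  have h : ∃ s, e s = e t := ⟨t, rfl⟩
  have h2 : h.choose = t := e.injective h.choose_spec
  show (if h : ∃ s, e s = e t then τ.W l h.choose else 0) = τ.W l t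
  rw [dif_pos h, h2]

theorem mem_std_A (τ : Ty) (e : Fin τ.n ↪o Ω) (a : Ω) : a ∈ (std τ e).A ↔ ∃ t, e t = a := by
  show a ∈ Finset.univ.map e.toEmbedding ↔ _
  simp


instance : Countable Ty := by
  let f : Ty → (Σ n : ℕ, Σ N : ℕ, (Fin N → Fin n → ℚ)) := fun τ => ⟨τ.n, τ.N, τ.W⟩
  have hf : Function.Injective f := by
    rintro ⟨n, N, W, h1, h2, h3⟩ ⟨n', N', W', h1', h2', h3'⟩ h
    simp only [f, Sigma.mk.injEq] at h
    obtain ⟨rfl, h⟩ := h
    rw [heq_eq_eq] at h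
    simp only [Sigma.mk.injEq] at h
    obtain ⟨rfl, h⟩ := h
    rw [heq_eq_eq] at h
    subst h
    rfl
  exact hf.countable

theorem es_hull_congr {ι : Type} [Fintype ι] {A : Finset Ω} {v : ι → Ω → ℚ} {z z' : Ω → ℚ}
    (h : Hull ℚ A v z) (hz : ∀ a ∈ A, z' a = z a) : Hull ℚ A v z' := by
  obtain ⟨u, h1, h2, h3, h4⟩ := h
  exact ⟨u, h1, h2, h3, fun a ha => (hz a ha).trans (h4 a ha)⟩

/-- the type of a condition -/
def es_ty (q : Cd Ω) : Ty := ⟨q.A.card, q.N, fun l t => q.v l (q.A.orderEmbOfFin rfl t),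
    fun l t => q.nonneg l _, fun l t => q.le_one l _,
    fun t => q.top _ (Finset.orderEmbOfFin_mem q.A rfl t)⟩

/-- the embedding of a condition -/
def es_e (q : Cd Ω) : Fin (es_ty q).n ↪o Ω := q.A.orderEmbOfFin rfl

theorem es_range (q : Cd Ω) (a : Ω) : a ∈ q.A ↔ ∃ t, es_e q t = a := by
  have h1 : a ∈ Set.range (q.A.orderEmbOfFin rfl) ↔ a ∈ q.A := by
    rw [Finset.range_orderEmbOfFin]
    exact Iff.rfl
  exact h1.symm


theorem exists_std (q : Cd Ω) : ∃ (τ : Ty) (e : Fin τ.n ↪o Ω), std τ e ≤ q ∧ q ≤ std τ e := by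
  refine ⟨es_ty q, es_e q, ⟨?_, fun g => ?_⟩, ⟨?_, fun g => ?_⟩⟩
  · intro a ha
    rw [mem_std_A]
    exact (es_range q a).1 ha
  · refine es_hull_congr (hull_self q.A q.v g) fun a ha => ?_
    obtain ⟨t, rfl⟩ := (es_range q a).1 ha
    exact std_v (es_ty q) (es_e q) g t
  · intro a ha
    exact (es_range q a).2 ((mem_std_A _ _ a).1 ha)
  · refine es_hull_congr (hull_self _ _ g) fun a ha => ?_
    obtain ⟨t, rfl⟩ := (mem_std_A _ _ a).1 ha
    exact (std_v (es_ty q) (es_e q) g t).symm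


theorem hull_std (τ : Ty) (e : Fin τ.n ↪o Ω) (z : Ω → ℚ) :
    Hull ℚ (std τ e).A (std τ e).v z ↔ ∃ u : Fin τ.N → Fin τ.n → ℚ, (∀ l t, 0 ≤ u l t) ∧
      (∀ l s t, s ≤ t → u l t ≤ u l s) ∧ (∀ t, ∑ l, u l t ≤ 1) ∧
      ∀ t, z (e t) = ∑ l, u l t * τ.W l t := by
  classical
  constructor
  · rintro ⟨u, h1, h2, h3, h4⟩
    have hm : ∀ t, e t ∈ (std τ e).A := fun t => (mem_std_A τ e _).2 ⟨t, rfl⟩
    refine ⟨fun l t => u l (e t), fun l t => h1 l _ (hm t),
      fun l s t hst => h2 l _ (hm s) _ (hm t) (e.le_iff_le.2 hst), fun t => h3 _ (hm t),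
      fun t => ?_⟩
    rw [h4 _ (hm t)]
    refine Finset.sum_congr rfl fun l _ => ?_
    have := std_v τ e l t
    rw [this, Rat.cast_id]
  · rintro ⟨u, h1, h2, h3, h4⟩
    let u' : Fin τ.N → Ω → ℚ := fun l a => if h : ∃ t, e t = a then u l h.choose else 0
    have hu : ∀ l t, u' l (e t) = u l t := by
      intro l t
      have h : ∃ s, e s = e t := ⟨t, rfl⟩
      have h2 : h.choose = t := e.injective h.choose_spec
      show (if h : ∃ s, e s = e t then u l h.choose else 0) = u l t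
      rw [dif_pos h, h2]
    refine ⟨u', ?_, ?_, ?_, ?_⟩
    · intro l a ha
      obtain ⟨t, rfl⟩ := (mem_std_A τ e a).1 ha
      have := hu l t
      rw [this]; exact h1 l t
    · intro l a ha b hb hab
      obtain ⟨s, rfl⟩ := (mem_std_A τ e a).1 ha
      obtain ⟨t, rfl⟩ := (mem_std_A τ e b).1 hb
      have e1 := hu l s
      have e2 := hu l t
      rw [e1, e2]
      exact h2 l s t (e.le_iff_le.1 hab)
    · intro a ha
      obtain ⟨t, rfl⟩ := (mem_std_A τ e a).1 ha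
      refine le_trans (le_of_eq ?_) (h3 t)
      exact Finset.sum_congr rfl fun l _ => hu l t
    · intro a ha
      obtain ⟨t, rfl⟩ := (mem_std_A τ e a).1 ha
      rw [h4 t]
      refine Finset.sum_congr rfl fun l _ => ?_
      have e1 := hu l t
      have e2 := std_v τ e l t
      rw [e1, e2, Rat.cast_id]

/-- The value of the vector `(i, l)` of the amalgam at the coordinate `e k t`. -/
def amv (τ : Ty) (m : ℕ) (η : ℕ → Fin τ.N → Fin τ.n → ℚ) (i : ℕ) (l : Fin τ.N) (k : ℕ)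
    (t : Fin τ.n) : ℚ :=
  if (t : ℕ) < m then τ.W l t else if k < i then η k l t * τ.W l t else
    if k = i then τ.W l t else 0


theorem exists_vertex (τ : Ty) (m : ℕ) (e : ℕ → (Fin τ.n ↪o Ω))
    (hroot : ∀ (i k : ℕ) (t : Fin τ.n), (t : ℕ) < m → e i t = e k t)
    (hsep : ∀ i k : ℕ, i < k → ∀ s t : Fin τ.n, m ≤ (t : ℕ) → e i s < e k t)
    (η : ℕ → Fin τ.N → Fin τ.n → ℚ) (h0 : ∀ k l t, 0 ≤ η k l t) (h1 : ∀ k l t, η k l t ≤ 1) :
    ∃ V : ℕ → Fin τ.N → Ω → ℚ, (∀ i l a, 0 ≤ V i l a) ∧ (∀ i l a, V i l a ≤ 1) ∧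
      ∀ i l k t, V i l (e k t) = amv τ m η i l k t := by
  classical
  have key : ∀ (i : ℕ) (l : Fin τ.N) (k : ℕ) (t : Fin τ.n) (k' : ℕ) (t' : Fin τ.n), k < k' →
      e k t = e k' t' → amv τ m η i l k t = amv τ m η i l k' t' := by
    intro i l k t k' t' hlt he
    have ht' : (t' : ℕ) < m := by
      by_contra hcon
      push Not at hcon
      exact absurd he (hsep k k' hlt t t' hcon).ne
    have h2 : e k' t' = e k t' := hroot k' k t' ht'
    have h3 : t = t' := (e k).injective (he.trans h2)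
    subst h3
    unfold amv
    rw [if_pos ht', if_pos ht']
  have key2 : ∀ (i : ℕ) (l : Fin τ.N) (k : ℕ) (t : Fin τ.n) (k' : ℕ) (t' : Fin τ.n),
      e k t = e k' t' → amv τ m η i l k t = amv τ m η i l k' t' := by
    intro i l k t k' t' he
    rcases lt_trichotomy k k' with h | h | h
    · exact key i l k t k' t' h he
    · subst h
      rw [(e k).injective he]
    · exact (key i l k' t' k t h he.symm).symm
  have b0 : ∀ i l k t, 0 ≤ amv τ m η i l k t := by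
    intro i l k t
    unfold amv
    split_ifs
    · exact τ.nonneg _ _
    · exact mul_nonneg (h0 _ _ _) (τ.nonneg _ _)
    · exact τ.nonneg _ _
    · exact le_rfl
  have b1 : ∀ i l k t, amv τ m η i l k t ≤ 1 := by
    intro i l k t
    unfold amv
    split_ifs
    · exact τ.le_one _ _
    · exact mul_le_one₀ (h1 _ _ _) (τ.nonneg _ _) (τ.le_one _ _)
    · exact τ.le_one _ _
    · exact zero_le_one
  refine ⟨fun i l a => if h : ∃ kt : ℕ × Fin τ.n, e kt.1 kt.2 = a then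
    amv τ m η i l h.choose.1 h.choose.2 else 0, ?_, ?_, ?_⟩
  · intro i l a
    by_cases h : ∃ kt : ℕ × Fin τ.n, e kt.1 kt.2 = a
    · simp only [dif_pos h]; exact b0 _ _ _ _
    · simp only [dif_neg h]; exact le_rfl
  · intro i l a
    by_cases h : ∃ kt : ℕ × Fin τ.n, e kt.1 kt.2 = a
    · simp only [dif_pos h]; exact b1 _ _ _ _
    · simp only [dif_neg h]; exact zero_le_one
  · intro i l k t
    have h : ∃ kt : ℕ × Fin τ.n, e kt.1 kt.2 = e k t := ⟨(k, t), rfl⟩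
    simp only [dif_pos h]
    exact key2 _ _ _ _ _ _ h.choose_spec


theorem amalgam_cd (τ : Ty) (m : ℕ) (e : ℕ → (Fin τ.n ↪o Ω)) (η : ℕ → Fin τ.N → Fin τ.n → ℚ)
    (V : ℕ → Fin τ.N → Ω → ℚ) (hV0 : ∀ i l a, 0 ≤ V i l a) (hV1 : ∀ i l a, V i l a ≤ 1)
    (hV : ∀ i l k t, V i l (e k t) = amv τ m η i l k t) (L : ℕ) :
    ∃ (R : Cd Ω) (g : Fin R.N ≃ Fin (L + 1) × Fin τ.N),
      (∀ a, a ∈ R.A ↔ ∃ k ≤ L, ∃ t, e k t = a) ∧
      ∀ j, ∀ a ∈ R.A, R.v j a = V ((g j).1 : ℕ) (g j).2 a := by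
  classical
  have hA : ∀ a, a ∈ (Finset.range (L + 1)).biUnion (fun k => Finset.univ.map (e k).toEmbedding) ↔
      ∃ k ≤ L, ∃ t, e k t = a := by
    intro a
    rw [Finset.mem_biUnion]
    constructor
    · rintro ⟨k, hk, ha⟩
      obtain ⟨t, _, ht⟩ := Finset.mem_map.1 ha
      exact ⟨k, by have := Finset.mem_range.1 hk; omega, t, ht⟩
    · rintro ⟨k, hk, t, ht⟩
      exact ⟨k, Finset.mem_range.2 (by omega), Finset.mem_map.2 ⟨t, Finset.mem_univ _, ht⟩⟩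
  refine ⟨{ A := (Finset.range (L + 1)).biUnion (fun k => Finset.univ.map (e k).toEmbedding)
            N := (L + 1) * τ.N
            v := fun j a => if a ∈ (Finset.range (L + 1)).biUnion
                (fun k => Finset.univ.map (e k).toEmbedding) then
                  V ((finProdFinEquiv.symm j).1 : ℕ) (finProdFinEquiv.symm j).2 a else 0
            supp := fun l a ha => if_neg ha
            nonneg := fun l a => by
              split_ifs
              · exact hV0 _ _ _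
              · exact le_rfl
            le_one := fun l a => by
              split_ifs
              · exact hV1 _ _ _
              · exact zero_le_one
            top := ?_ }, finProdFinEquiv.symm, hA, fun _ _ ha => if_pos ha⟩
  intro a ha
  obtain ⟨k, hk, t, rfl⟩ := (hA a).1 ha
  obtain ⟨l, hl⟩ := τ.top t
  refine ⟨finProdFinEquiv (⟨k, by omega⟩, l), ?_⟩
  rw [if_pos ha, Equiv.symm_apply_apply]
  show V k l (e k t) = 1
  rw [hV]
  unfold amv
  split_ifs with h1 h2 h3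
  · exact hl
  · exact absurd h2 (lt_irrefl _)
  · exact hl
  · exact absurd rfl h3


theorem amalgam_le (τ : Ty) (m : ℕ) (e : ℕ → (Fin τ.n ↪o Ω)) (η : ℕ → Fin τ.N → Fin τ.n → ℚ)
    (h0 : ∀ k l t, 0 ≤ η k l t) (h1 : ∀ k l t, η k l t ≤ 1)
    (hanti : ∀ k l s t, s ≤ t → η k l t ≤ η k l s)
    (V : ℕ → Fin τ.N → Ω → ℚ) (hV : ∀ i l k t, V i l (e k t) = amv τ m η i l k t) (L : ℕ)
    (R : Cd Ω) (g : Fin R.N ≃ Fin (L + 1) × Fin τ.N)
    (hA : ∀ a, a ∈ R.A ↔ ∃ k ≤ L, ∃ t, e k t = a)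
    (hR : ∀ j, ∀ a ∈ R.A, R.v j a = V ((g j).1 : ℕ) (g j).2 a) (k : ℕ) (hk : k ≤ L) :
    R ≤ std τ (e k) := by
  classical
  refine ⟨?_, fun j => ?_⟩
  · intro a ha
    obtain ⟨t, ht⟩ := (mem_std_A τ (e k) a).1 ha
    exact (hA a).2 ⟨k, hk, t, ht⟩
  · rw [hull_std]
    obtain ⟨i, hi⟩ : ∃ i : ℕ, i = ((g j).1 : ℕ) := ⟨_, rfl⟩
    obtain ⟨l, hl⟩ : ∃ l : Fin τ.N, l = (g j).2 := ⟨_, rfl⟩
    obtain ⟨w, hw⟩ : ∃ w : Fin τ.n → ℚ, w = fun t : Fin τ.n => if (t : ℕ) < m then 1 else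
      if k < i then η k l t else if k = i then 1 else 0 := ⟨_, rfl⟩
    have hw0 : ∀ t, 0 ≤ w t := by
      intro t
      rw [hw]
      simp only
      split_ifs
      · exact zero_le_one
      · exact h0 _ _ _
      · exact zero_le_one
      · exact le_rfl
    have hw1 : ∀ t, w t ≤ 1 := by
      intro t
      rw [hw]
      simp only
      split_ifs
      · exact le_rfl
      · exact h1 _ _ _
      · exact le_rfl
      · exact zero_le_one
    have hwa : ∀ s t, s ≤ t → w t ≤ w s := by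
      intro s t hst
      by_cases hs : (s : ℕ) < m
      · have h2 : w s = 1 := by
          rw [hw]
          simp only
          rw [if_pos hs]
        rw [h2]
        exact hw1 t
      · have hst' : (s : ℕ) ≤ t := hst
        have ht : ¬ (t : ℕ) < m := by omega
        rw [hw]
        simp only
        rw [if_neg hs, if_neg ht]
        split_ifs
        · exact hanti k l s t hst
        · exact le_rfl
        · exact le_rfl
    refine ⟨fun l' t => if l' = l then w t else 0, ?_, ?_, ?_, ?_⟩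
    · intro l' t
      simp only
      split_ifs
      · exact hw0 t
      · exact le_rfl
    · intro l' s t hst
      simp only
      split_ifs
      · exact hwa s t hst
      · exact le_rfl
    · intro t
      rw [Finset.sum_ite_eq' Finset.univ l (fun _ => w t), if_pos (Finset.mem_univ _)]
      exact hw1 t
    · intro t
      rw [hR j (e k t) ((hA _).2 ⟨k, hk, t, rfl⟩), ← hi, ← hl, hV]
      simp only [ite_mul, zero_mul]
      rw [Finset.sum_ite_eq' Finset.univ l (fun l' => w t * τ.W l' t), if_pos (Finset.mem_univ _)]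
      rw [hw]
      simp only [amv]
      split_ifs <;> simp


theorem amalgam_hull (τ : Ty) (m : ℕ) (e : ℕ → (Fin τ.n ↪o Ω)) (η : ℕ → Fin τ.N → Fin τ.n → ℚ)
    (V : ℕ → Fin τ.N → Ω → ℚ) (hV : ∀ i l k t, V i l (e k t) = amv τ m η i l k t) (L : ℕ)
    (R : Cd Ω) (g : Fin R.N ≃ Fin (L + 1) × Fin τ.N)
    (hA : ∀ a, a ∈ R.A ↔ ∃ k ≤ L, ∃ t, e k t = a)
    (hR : ∀ j, ∀ a ∈ R.A, R.v j a = V ((g j).1 : ℕ) (g j).2 a) (z : Ω → ℚ) (hz : Hull ℚ R.A R.v z) :
    ∃ U : ℕ → Fin τ.N → Ω → ℚ,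
      (∀ i l, ∀ k ≤ L, ∀ t, 0 ≤ U i l (e k t)) ∧
      (∀ i l, ∀ k ≤ L, ∀ k' ≤ L, ∀ s t, e k s ≤ e k' t → U i l (e k' t) ≤ U i l (e k s)) ∧
      (∀ k ≤ L, ∀ t, ∑ i ∈ Finset.range (L + 1), ∑ l, U i l (e k t) ≤ 1) ∧
      ∀ k ≤ L, ∀ t, z (e k t) =
        ∑ i ∈ Finset.range (L + 1), ∑ l, U i l (e k t) * amv τ m η i l k t := by
  classical
  obtain ⟨u, hu0, hua, hu1, hz1⟩ := hz
  have hmem : ∀ k ≤ L, ∀ t, e k t ∈ R.A := fun k hk t => (hA _).2 ⟨k, hk, t, rfl⟩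
  have hre : ∀ (F : ℕ → Fin τ.N → ℚ) (G : Fin R.N → ℚ),
      (∀ (i : Fin (L + 1)) l, F (i : ℕ) l = G (g.symm (i, l))) →
      ∑ i ∈ Finset.range (L + 1), ∑ l, F i l = ∑ j, G j := by
    intro F G h
    rw [Finset.sum_range (fun i => ∑ l, F i l)]
    rw [← Equiv.sum_comp g.symm G, Fintype.sum_prod_type]
    exact Finset.sum_congr rfl fun i _ => Finset.sum_congr rfl fun l _ => h i l
  refine ⟨fun i l a => if h : i < L + 1 then u (g.symm (⟨i, h⟩, l)) a else 0, ?_, ?_, ?_, ?_⟩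
  · intro i l k hk t
    by_cases h : i < L + 1
    · simp only [dif_pos h]
      exact hu0 _ _ (hmem k hk t)
    · simp only [dif_neg h]
      exact le_rfl
  · intro i l k hk k' hk' s t hst
    by_cases h : i < L + 1
    · simp only [dif_pos h]
      exact hua _ _ (hmem k hk s) _ (hmem k' hk' t) hst
    · simp only [dif_neg h]
      exact le_rfl
  · intro k hk t
    rw [hre _ (fun j => u j (e k t))]
    · exact hu1 _ (hmem k hk t)
    · intro i l
      simp only [dif_pos i.2]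
  · intro k hk t
    rw [hz1 _ (hmem k hk t)]
    symm
    apply hre
    intro i l
    simp only [dif_pos i.2]
    rw [hR _ _ (hmem k hk t), Equiv.apply_symm_apply, hV]
    simp

theorem amalgam (τ : Ty) (m : ℕ) (e : ℕ → (Fin τ.n ↪o Ω))
    (hroot : ∀ (i k : ℕ) (t : Fin τ.n), (t : ℕ) < m → e i t = e k t)
    (hsep : ∀ i k : ℕ, i < k → ∀ s t : Fin τ.n, m ≤ (t : ℕ) → e i s < e k t)
    (η : ℕ → Fin τ.N → Fin τ.n → ℚ) (h0 : ∀ k l t, 0 ≤ η k l t) (h1 : ∀ k l t, η k l t ≤ 1)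
    (hanti : ∀ k l s t, s ≤ t → η k l t ≤ η k l s) (L : ℕ) :
    ∃ R : Cd Ω, (∀ k ≤ L, R ≤ std τ (e k)) ∧
      ∀ z : Ω → ℚ, Hull ℚ R.A R.v z → ∃ U : ℕ → Fin τ.N → Ω → ℚ,
        (∀ i l, ∀ k ≤ L, ∀ t, 0 ≤ U i l (e k t)) ∧
        (∀ i l, ∀ k ≤ L, ∀ k' ≤ L, ∀ s t, e k s ≤ e k' t → U i l (e k' t) ≤ U i l (e k s)) ∧
        (∀ k ≤ L, ∀ t, ∑ i ∈ Finset.range (L + 1), ∑ l, U i l (e k t) ≤ 1) ∧
        ∀ k ≤ L, ∀ t, z (e k t) =
          ∑ i ∈ Finset.range (L + 1), ∑ l, U i l (e k t) * amv τ m η i l k t := by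
  obtain ⟨V, hV0, hV1, hV⟩ := exists_vertex τ m e hroot hsep η h0 h1
  obtain ⟨R, g, hA, hR⟩ := amalgam_cd τ m e η V hV0 hV1 hV L
  exact ⟨R, fun k hk => amalgam_le τ m e η h0 h1 hanti V hV L R g hA hR k hk,
    fun z hz => amalgam_hull τ m e η V hV L R g hA hR z hz⟩


theorem sep_amalgam (τ : Ty) (m : ℕ) (e : ℕ → (Fin τ.n ↪o Ω))
    (hroot : ∀ (i k : ℕ) (t : Fin τ.n), (t : ℕ) < m → e i t = e k t)
    (hsep : ∀ i k : ℕ, i < k → ∀ s t : Fin τ.n, m ≤ (t : ℕ) → e i s < e k t) :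
    ∃ R : Cd Ω, R ≤ std τ (e 0) ∧ R ≤ std τ (e 1) ∧
      ∀ t : Fin τ.n, m ≤ (t : ℕ) → Apart R (e 0 t) (e 1 t) := by
  obtain ⟨R, hle, hU⟩ := amalgam τ m e hroot hsep (fun _ _ _ => 0) (fun _ _ _ => le_rfl)
    (fun _ _ _ => zero_le_one) (fun _ _ _ _ _ => le_rfl) 1
  refine ⟨R, hle 0 (Nat.zero_le _), hle 1 le_rfl, fun t ht z hz => ?_⟩
  obtain ⟨U, U0, Udec, Usum, Uz⟩ := hU z hz
  have htm : ¬ (t : ℕ) < m := not_lt.2 ht
  have e0 := Uz 0 (Nat.zero_le _) t
  have e1 := Uz 1 le_rfl t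
  have s0 := Usum 0 (Nat.zero_le _) t
  rw [Finset.sum_range_succ, Finset.sum_range_one] at e0 e1 s0
  have a00 : ∀ l, amv τ m (fun _ _ _ => 0) 0 l 0 t = τ.W l t := fun l => by
    unfold amv
    rw [if_neg htm, if_neg (lt_irrefl _), if_pos rfl]
  have a10 : ∀ l, amv τ m (fun _ _ _ => 0) 1 l 0 t = 0 := fun l => by
    unfold amv
    rw [if_neg htm, if_pos (Nat.zero_lt_one), zero_mul]
  have a01 : ∀ l, amv τ m (fun _ _ _ => 0) 0 l 1 t = 0 := fun l => by
    unfold amv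
    rw [if_neg htm, if_neg (Nat.not_lt_zero _), if_neg Nat.one_ne_zero]
  have a11 : ∀ l, amv τ m (fun _ _ _ => 0) 1 l 1 t = τ.W l t := fun l => by
    unfold amv
    rw [if_neg htm, if_neg (lt_irrefl _), if_pos rfl]
  have z0 : z (e 0 t) = ∑ l, U 0 l (e 0 t) * τ.W l t := by
    rw [e0]
    simp only [a00, a10, mul_zero, Finset.sum_const_zero, add_zero]
  have z1 : z (e 1 t) = ∑ l, U 1 l (e 1 t) * τ.W l t := by
    rw [e1]
    simp only [a01, a11, mul_zero, Finset.sum_const_zero, zero_add]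
  have hlt : e 0 t ≤ e 1 t := (hsep 0 1 Nat.zero_lt_one t t ht).le
  have b0 : z (e 0 t) ≤ ∑ l, U 0 l (e 0 t) := by
    rw [z0]
    exact Finset.sum_le_sum fun l _ =>
      mul_le_of_le_one_right (U0 0 l 0 (Nat.zero_le _) t) (τ.le_one l t)
  have b1 : z (e 1 t) ≤ ∑ l, U 1 l (e 0 t) := by
    rw [z1]
    exact Finset.sum_le_sum fun l _ =>
      (mul_le_of_le_one_right (U0 1 l 1 le_rfl t) (τ.le_one l t)).trans
        (Udec 1 l 0 (Nat.zero_le _) 1 le_rfl t t hlt)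
  linarith

end Order

section Numeric


theorem pigeon (F : ℕ → ℚ) (P Q : ℕ) (hP : 0 < P) (h0 : F 0 ≤ 1) (hL : 0 ≤ F (P * Q)) :
    ∃ j < P, F (j * Q) - F ((j + 1) * Q) ≤ 1 / P := by
  by_contra hno
  push Not at hno
  have h1 : ∑ j ∈ Finset.range P, (1 / P : ℚ) <
      ∑ j ∈ Finset.range P, (F (j * Q) - F ((j + 1) * Q)) :=
    Finset.sum_lt_sum_of_nonempty (Finset.nonempty_range_iff.2 hP.ne')
      (fun j hj => hno j (Finset.mem_range.1 hj))
  have h2 : ∑ j ∈ Finset.range P, (F (j * Q) - F ((j + 1) * Q)) = F (0 * Q) - F (P * Q) :=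
    Finset.sum_range_sub' (fun j => F (j * Q)) P
  have h3 : ∑ j ∈ Finset.range P, (1 / P : ℚ) = 1 := by
    rw [Finset.sum_const, Finset.card_range, nsmul_eq_mul]
    have : (P : ℚ) ≠ 0 := by exact_mod_cast hP.ne'
    field_simp
  rw [h2, h3, Nat.zero_mul] at h1
  linarith

/-- Properties of the coefficients `U i l k t` (the coefficient of the vector `(i, l)` at the
coordinate `e k t`). -/
structure Coef (N n m L : ℕ) (U : ℕ → Fin N → ℕ → Fin n → ℚ) : Prop where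
  nonneg : ∀ i l, ∀ k ≤ L, ∀ t, 0 ≤ U i l k t
  anti : ∀ i l, ∀ k ≤ L, ∀ s t, s ≤ t → U i l k t ≤ U i l k s
  step : ∀ i l, ∀ k k' : ℕ, k < k' → k' ≤ L → ∀ s t : Fin n, m ≤ (t : ℕ) → U i l k' t ≤ U i l k s
  sum : ∀ k ≤ L, ∀ t, ∑ i ∈ Finset.range (L + 1), ∑ l, U i l k t ≤ 1

/-- The sum of the coefficients of the vectors `(i, l)` with `k ≤ i ≤ L` at the coordinate `e k m`. -/
def FF {N n : ℕ} (U : ℕ → Fin N → ℕ → Fin n → ℚ) (L : ℕ) (m' : Fin n) (k : ℕ) : ℚ :=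
  ∑ i ∈ Finset.Icc k L, ∑ l, U i l k m'

variable {N n m L : ℕ} {U : ℕ → Fin N → ℕ → Fin n → ℚ}


theorem FF_bounds (hU : Coef N n m L U) (m' : Fin n) (k : ℕ) (hk : k ≤ L) :
    0 ≤ FF U L m' k ∧ FF U L m' k ≤ 1 := by
  refine ⟨Finset.sum_nonneg fun i _ => Finset.sum_nonneg fun l _ => hU.nonneg i l k hk m', ?_⟩
  refine le_trans ?_ (hU.sum k hk m')
  apply Finset.sum_le_sum_of_subset_of_nonneg
  · intro i hi
    rw [Finset.mem_Icc] at hi
    rw [Finset.mem_range]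
    omega
  · intro i _ _
    exact Finset.sum_nonneg fun l _ => hU.nonneg i l k hk m'


theorem round_one (hU : Coef N n m L U) (m' : Fin n) (hm' : (m' : ℕ) = m) (k1 k2 k : ℕ)
    (h2 : k2 ≤ L) (hk1 : k1 ≤ k) (hk2 : k < k2) (t : Fin n) (ht : m ≤ (t : ℕ)) :
    ∑ l, U k l k t ≤ FF U L m' k1 - FF U L m' k2 := by
  have hk : k ≤ L := hk2.le.trans h2
  have hk1L : k1 ≤ L := hk1.trans hk
  have hm'm : m ≤ (m' : ℕ) := hm'.ge
  have hnot : k ∉ Finset.Icc k2 L := by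
    rw [Finset.mem_Icc]
    omega
  have hsub : insert k (Finset.Icc k2 L) ⊆ Finset.Icc k1 L := by
    intro i hi
    rw [Finset.mem_insert, Finset.mem_Icc] at hi
    rw [Finset.mem_Icc]
    omega
  have h3 : ∑ i ∈ insert k (Finset.Icc k2 L), ∑ l, U i l k1 m' ≤ FF U L m' k1 := by
    unfold FF
    exact Finset.sum_le_sum_of_subset_of_nonneg hsub
      (fun i _ _ => Finset.sum_nonneg (fun l _ => hU.nonneg i l k1 hk1L m'))
  rw [Finset.sum_insert hnot] at h3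
  have h4 : FF U L m' k2 ≤ ∑ i ∈ Finset.Icc k2 L, ∑ l, U i l k1 m' := by
    unfold FF
    exact Finset.sum_le_sum (fun i _ => Finset.sum_le_sum (fun l _ =>
      hU.step i l k1 k2 (lt_of_le_of_lt hk1 hk2) h2 m' m' hm'm))
  have h5 : ∑ l, U k l k t ≤ ∑ l, U k l k1 m' := by
    refine Finset.sum_le_sum (fun l _ => ?_)
    rcases hk1.eq_or_lt with h6 | h6
    · rw [h6]
      exact hU.anti k l k hk m' t (by
        rw [Fin.le_def]
        omega)
    · exact hU.step k l k1 k h6 hk m' t ht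
  linarith


theorem round_two (hU : Coef N n m L U) (m' : Fin n) (hm' : (m' : ℕ) = m) (k1 k2 k : ℕ)
    (h2 : k2 ≤ L) (hk1 : k1 ≤ k) (hk2 : k < k2) (t : Fin n) (ht : m ≤ (t : ℕ)) :
    ∑ l, ((∑ i ∈ Finset.Icc k1 L, U i l k1 m') - ∑ i ∈ Finset.Icc k L, U i l k t) ≤
      FF U L m' k1 - FF U L m' k2 := by
  have hkL : k ≤ L := by omega
  rw [Finset.sum_sub_distrib]
  have hA : ∑ l, ∑ i ∈ Finset.Icc k1 L, U i l k1 m' = FF U L m' k1 := by
    unfold FF
    rw [Finset.sum_comm]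
  have hB : FF U L m' k2 ≤ ∑ l, ∑ i ∈ Finset.Icc k L, U i l k t := by
    rw [Finset.sum_comm]
    unfold FF
    calc ∑ i ∈ Finset.Icc k2 L, ∑ l, U i l k2 m'
        ≤ ∑ i ∈ Finset.Icc k2 L, ∑ l, U i l k t := by
          apply Finset.sum_le_sum
          intro i _
          apply Finset.sum_le_sum
          intro l _
          exact hU.step i l k k2 hk2 h2 t m' (by omega)
      _ ≤ ∑ i ∈ Finset.Icc k L, ∑ l, U i l k t := by
          apply Finset.sum_le_sum_of_subset_of_nonneg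
          · intro i hi
            rw [Finset.mem_Icc] at hi ⊢
            omega
          · intro i _ _
            exact Finset.sum_nonneg fun l _ => hU.nonneg i l k hkL t
  linarith


theorem round_three (hU : Coef N n m L U) (m' : Fin n) (hm' : (m' : ℕ) = m) (k1 k : ℕ)
    (hk : k ≤ L) (hk1 : k1 ≤ k) (t : Fin n) (ht : m ≤ (t : ℕ)) (l : Fin N) :
    ∑ i ∈ Finset.Icc k L, U i l k t ≤ ∑ i ∈ Finset.Icc k1 L, U i l k1 m' := by
  have hpt : ∀ i : ℕ, U i l k t ≤ U i l k1 m' := by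
    intro i
    rcases Nat.eq_or_lt_of_le hk1 with h | h
    · subst h
      exact hU.anti i l k1 hk m' t (Fin.le_def.2 (by omega))
    · exact hU.step i l k1 k h hk m' t ht
  calc ∑ i ∈ Finset.Icc k L, U i l k t ≤ ∑ i ∈ Finset.Icc k L, U i l k1 m' :=
        Finset.sum_le_sum fun i _ => hpt i
    _ ≤ ∑ i ∈ Finset.Icc k1 L, U i l k1 m' := by
        refine Finset.sum_le_sum_of_subset_of_nonneg (Finset.Icc_subset_Icc_left hk1) ?_
        intro i _ _
        exact hU.nonneg i l k1 (hk1.trans hk) m'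


theorem round_est (hU : Coef N n m L U) (m' : Fin n) (hm' : (m' : ℕ) = m) (k1 k2 k : ℕ)
    (h2 : k2 ≤ L) (hk1 : k1 ≤ k) (hk2 : k < k2) (δ : ℚ)
    (hδ : FF U L m' k1 - FF U L m' k2 ≤ δ) (t : Fin n) (ht : m ≤ (t : ℕ))
    (W η : Fin N → ℚ) (hW0 : ∀ l, 0 ≤ W l) (hW1 : ∀ l, W l ≤ 1) (h0 : ∀ l, 0 ≤ η l)
    (h1 : ∀ l, η l ≤ 1) :
    |∑ l, (U k l k t + η l * ∑ i ∈ Finset.Ioc k L, U i l k t) * W l -
      ∑ l, (∑ i ∈ Finset.Icc k1 L, U i l k1 m') * η l * W l| ≤ δ := by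
  have hkL : k ≤ L := by omega
  have hr1 := round_one hU m' hm' k1 k2 k h2 hk1 hk2 t ht
  have hr2 := round_two hU m' hm' k1 k2 k h2 hk1 hk2 t ht
  have hr3 := fun l => round_three hU m' hm' k1 k hkL hk1 t ht l
  have hg : ∀ l, ∑ i ∈ Finset.Icc k L, U i l k t =
      U k l k t + ∑ i ∈ Finset.Ioc k L, U i l k t := by
    intro l
    rw [Finset.Icc_eq_cons_Ioc hkL, Finset.sum_cons]
  have hUn : ∀ l, 0 ≤ U k l k t := fun l => hU.nonneg k l k hkL t
  rw [← Finset.sum_sub_distrib]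
  have hkey : ∀ l, -((∑ i ∈ Finset.Icc k1 L, U i l k1 m') - ∑ i ∈ Finset.Icc k L, U i l k t) ≤
      (U k l k t + η l * ∑ i ∈ Finset.Ioc k L, U i l k t) * W l -
        (∑ i ∈ Finset.Icc k1 L, U i l k1 m') * η l * W l ∧
      (U k l k t + η l * ∑ i ∈ Finset.Ioc k L, U i l k t) * W l -
        (∑ i ∈ Finset.Icc k1 L, U i l k1 m') * η l * W l ≤ U k l k t := by
    intro l
    have a1 := hr3 l
    have a2 := hg l
    have a3 := hUn l
    have a4 := hW0 l
    have a5 := hW1 l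
    have a6 := h0 l
    have a7 := h1 l
    set c := ∑ i ∈ Finset.Icc k1 L, U i l k1 m'
    set S := ∑ i ∈ Finset.Ioc k L, U i l k t
    set u := U k l k t
    rw [a2] at a1 ⊢
    have b1 : 0 ≤ (1 - η l) * u := mul_nonneg (by linarith) a3
    have b2 : (1 - η l) * u ≤ u := by nlinarith
    have b3 : 0 ≤ η l * (c - (u + S)) := mul_nonneg a6 (by linarith)
    have b4 : η l * (c - (u + S)) ≤ c - (u + S) := by nlinarith
    have e : (u + η l * S) * W l - c * η l * W l =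
        (1 - η l) * u * W l - η l * (c - (u + S)) * W l := by ring
    rw [e]
    have b5 : 0 ≤ (1 - η l) * u * W l := mul_nonneg b1 a4
    have b6 : (1 - η l) * u * W l ≤ (1 - η l) * u := by nlinarith
    have b7 : 0 ≤ η l * (c - (u + S)) * W l := mul_nonneg b3 a4
    have b8 : η l * (c - (u + S)) * W l ≤ η l * (c - (u + S)) := by nlinarith
    constructor <;> linarith
  rw [abs_le]
  constructor
  · have h3 := Finset.sum_le_sum (fun l (_ : l ∈ Finset.univ) => (hkey l).1)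
    rw [Finset.sum_neg_distrib] at h3
    linarith
  · have h3 := Finset.sum_le_sum (fun l (_ : l ∈ Finset.univ) => (hkey l).2)
    linarith


theorem exists_theta (M : ℕ) (hM : 0 < M) (c : Fin N → ℚ) (d : Fin N → Fin n → ℚ)
    (hd0 : ∀ l (t : Fin n), m ≤ (t : ℕ) → 0 ≤ d l t)
    (hdc : ∀ l (t : Fin n), m ≤ (t : ℕ) → d l t ≤ c l)
    (hanti : ∀ l (s t : Fin n), m ≤ (s : ℕ) → s ≤ t → d l t ≤ d l s)
    (hc0 : ∀ l, 0 ≤ c l) (hc1 : ∑ l, c l ≤ 1) :
    ∃ f : Fin N → Fin n → Fin (M + 1), (∀ l s t, s ≤ t → f l t ≤ f l s) ∧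
      ∀ t : Fin n, m ≤ (t : ℕ) → ∀ W : Fin N → ℚ, (∀ l, 0 ≤ W l) → (∀ l, W l ≤ 1) →
        |∑ l, c l * (((f l t : ℕ) : ℚ) / M) * W l - ∑ l, d l t * W l| ≤ 1 / M := by
  have hMq : (0 : ℚ) < M := by exact_mod_cast hM
  refine ⟨fun l t => if (t : ℕ) < m then ⟨M, Nat.lt_succ_self M⟩ else
    ⟨min M ⌊(M : ℚ) * d l t / c l⌋₊, Nat.lt_succ_of_le (min_le_left _ _)⟩, ?_, ?_⟩
  · intro l s t hst
    have hst' : (s : ℕ) ≤ (t : ℕ) := hst
    by_cases hs : (s : ℕ) < m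
    · simp only [if_pos hs]
      exact Fin.le_last _
    · have ht : ¬ (t : ℕ) < m := fun h => hs (lt_of_le_of_lt hst' h)
      simp only [if_neg hs, if_neg ht]
      rw [Fin.mk_le_mk]
      refine min_le_min le_rfl (Nat.floor_le_floor ?_)
      refine div_le_div_of_nonneg_right ?_ (hc0 l)
      exact mul_le_mul_of_nonneg_left (hanti l s t (not_lt.1 hs) hst) hMq.le
  · intro t ht W hW0 hW1
    have ht' : ¬ (t : ℕ) < m := not_lt.2 ht
    simp only [if_neg ht']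
    have key : ∀ l, |c l * (((min M ⌊(M : ℚ) * d l t / c l⌋₊ : ℕ) : ℚ) / M) - d l t| ≤ c l / M := by
      intro l
      rcases eq_or_lt_of_le (hc0 l) with h | h
      · have h0 : d l t = 0 := le_antisymm (by rw [h]; exact hdc l t ht) (hd0 l t ht)
        rw [h0, ← h]
        simp
      · have hq0 : 0 ≤ (M : ℚ) * d l t / c l := div_nonneg (mul_nonneg hMq.le (hd0 l t ht)) h.le
        have hq1 : (M : ℚ) * d l t / c l ≤ M := by
          rw [div_le_iff₀ h]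
          exact mul_le_mul_of_nonneg_left (hdc l t ht) hMq.le
        have hf : ⌊(M : ℚ) * d l t / c l⌋₊ ≤ M := by
          have := Nat.floor_le_floor hq1
          rwa [Nat.floor_natCast] at this
        rw [min_eq_right hf]
        have e1 := Nat.floor_le hq0
        have e2 := Nat.lt_floor_add_one ((M : ℚ) * d l t / c l)
        have e3 : c l * (((M : ℚ) * d l t / c l) / M) = d l t := by
          field_simp
        have e4 : c l * ((⌊(M : ℚ) * d l t / c l⌋₊ : ℚ) / M) ≤ d l t := by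
          refine le_trans ?_ e3.le
          exact mul_le_mul_of_nonneg_left (div_le_div_of_nonneg_right e1 hMq.le) h.le
        have e5 : d l t ≤ c l * (((⌊(M : ℚ) * d l t / c l⌋₊ : ℚ) + 1) / M) := by
          refine le_trans e3.ge ?_
          exact mul_le_mul_of_nonneg_left (div_le_div_of_nonneg_right e2.le hMq.le) h.le
        have e6 : c l * (((⌊(M : ℚ) * d l t / c l⌋₊ : ℚ) + 1) / M) =
            c l * ((⌊(M : ℚ) * d l t / c l⌋₊ : ℚ) / M) + c l / M := by ring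
        have e7 : 0 ≤ c l / M := div_nonneg h.le hMq.le
        rw [abs_le]
        constructor <;> linarith
    rw [← Finset.sum_sub_distrib]
    refine (Finset.abs_sum_le_sum_abs _ _).trans ?_
    calc
      _ ≤ ∑ l, c l / M := by
        refine Finset.sum_le_sum fun l _ => ?_
        rw [← sub_mul, abs_mul, abs_of_nonneg (hW0 l)]
        have h1 := key l
        have h2 := hW1 l
        calc
          _ ≤ (c l / M) * 1 := mul_le_mul h1 h2 (hW0 l) (div_nonneg (hc0 l) hMq.le)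
          _ = _ := mul_one _
      _ = (∑ l, c l) / M := by rw [Finset.sum_div]
      _ ≤ 1 / M := div_le_div_of_nonneg_right hc1 hMq.le


theorem numeric (P M Q : ℕ) (hP : 0 < P) (hM : 0 < M) (hQ : 0 < Q) (m' : Fin n)
    (hm' : (m' : ℕ) = m) (θ : Fin Q → Fin N → Fin n → Fin (M + 1))
    (hθ : ∀ f : Fin N → Fin n → Fin (M + 1), (∀ l s t, s ≤ t → f l t ≤ f l s) → ∃ q, θ q = f)
    (hU : Coef N n m (P * Q) U) (W : Fin N → Fin n → ℚ) (hW0 : ∀ l t, 0 ≤ W l t)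
    (hW1 : ∀ l t, W l t ≤ 1) :
    ∃ k < P * Q, ∀ t : Fin n, m ≤ (t : ℕ) →
      |∑ l, (U k l k t + (((θ ⟨k % Q, Nat.mod_lt _ hQ⟩ l t : ℕ) : ℚ) / M) *
          ∑ i ∈ Finset.Ioc k (P * Q), U i l k t) * W l t -
        ∑ l, U (P * Q) l (P * Q) t * W l t| ≤ 1 / P + 1 / M := by
  classical
  obtain ⟨j, hj, hjF⟩ := pigeon (fun k => FF U (P * Q) m' k) P Q hP
    (FF_bounds hU m' 0 (Nat.zero_le _)).2 (FF_bounds hU m' (P * Q) le_rfl).1
  have hk2 : (j + 1) * Q ≤ P * Q := Nat.mul_le_mul_right Q hj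
  have hlt : j * Q < (j + 1) * Q := Nat.mul_lt_mul_of_pos_right (Nat.lt_succ_self j) hQ
  have hk1 : j * Q < P * Q := lt_of_lt_of_le hlt hk2
  have hmm : m ≤ (m' : ℕ) := hm'.ge
  have hnn : ∀ l, ∀ i ∈ Finset.Icc (j * Q) (P * Q), 0 ≤ U i l (j * Q) m' :=
    fun l i _ => hU.nonneg i l (j * Q) hk1.le m'
  obtain ⟨f, hf, hfM⟩ := exists_theta (N := N) (n := n) (m := m) M hM
    (fun l => ∑ i ∈ Finset.Icc (j * Q) (P * Q), U i l (j * Q) m')
    (fun l t => U (P * Q) l (P * Q) t)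
    (fun l t _ => hU.nonneg _ l _ le_rfl t)
    (fun l t ht => (hU.step (P * Q) l (j * Q) (P * Q) hk1 le_rfl m' t ht).trans
      (Finset.single_le_sum (f := fun i => U i l (j * Q) m') (hnn l)
        (Finset.mem_Icc.2 ⟨hk1.le, le_rfl⟩)))
    (fun l s t _ hst => hU.anti _ l _ le_rfl s t hst)
    (fun l => Finset.sum_nonneg (hnn l))
    (by
      rw [Finset.sum_comm]
      exact (FF_bounds hU m' (j * Q) hk1.le).2)
  obtain ⟨q, hq⟩ := hθ f hf
  have hkQ : (j * Q + (q : ℕ)) % Q = q := by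
    rw [Nat.add_comm, Nat.add_mul_mod_self_right, Nat.mod_eq_of_lt q.2]
  have hkk : j * Q + (q : ℕ) < (j + 1) * Q := by
    have := q.2
    rw [Nat.add_mul, Nat.one_mul]
    omega
  refine ⟨j * Q + q, lt_of_lt_of_le hkk hk2, fun t ht => ?_⟩
  have hθq : θ ⟨(j * Q + (q : ℕ)) % Q, Nat.mod_lt _ hQ⟩ = f := by
    rw [← hq]
    congr 1
    exact Fin.ext hkQ
  rw [hθq]
  have hMq : (0 : ℚ) < M := by exact_mod_cast hM
  have h1 := round_est hU m' hm' (j * Q) ((j + 1) * Q) (j * Q + q) hk2 (Nat.le_add_right _ _) hkk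
    (1 / P) hjF t ht (fun l => W l t) (fun l => ((f l t : ℕ) : ℚ) / M) (fun l => hW0 l t)
    (fun l => hW1 l t) (fun l => by positivity)
    (fun l => by
      rw [div_le_one hMq]
      have := (f l t).2
      exact_mod_cast Nat.lt_succ_iff.1 this)
  have h2 := hfM t ht (fun l => W l t) (fun l => hW0 l t) (fun l => hW1 l t)
  exact (abs_sub_le _ _ _).trans (add_le_add h1 h2)

end Numeric

section Force

variable {Ω : Type} [LinearOrder Ω]


theorem eval_amv (τ : Ty) (m : ℕ) (η : ℕ → Fin τ.N → Fin τ.n → ℚ) (L k : ℕ) (hk : k ≤ L)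
    (t : Fin τ.n) (ht : m ≤ (t : ℕ)) (U : ℕ → Fin τ.N → ℚ) :
    ∑ i ∈ Finset.range (L + 1), ∑ l, U i l * amv τ m η i l k t =
      ∑ l, (U k l + η k l t * ∑ i ∈ Finset.Ioc k L, U i l) * τ.W l t := by
  rw [Finset.sum_comm]
  refine Finset.sum_congr rfl fun l _ => ?_
  have h1 : ∀ i ∈ Finset.range (L + 1), U i l * amv τ m η i l k t =
      (if i = k then U k l * τ.W l t else 0) +
        (if k < i then U i l * (η k l t * τ.W l t) else 0) := by
    intro i _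
    unfold amv
    rw [if_neg (not_lt.2 ht)]
    rcases lt_trichotomy i k with h | h | h
    · rw [if_neg (by omega), if_neg (by omega), if_neg (by omega), if_neg (by omega)]
      simp
    · subst h
      simp
    · rw [if_pos h, if_neg (by omega), if_pos h]
      simp
  rw [Finset.sum_congr rfl h1, Finset.sum_add_distrib, Finset.sum_ite_eq',
    if_pos (Finset.mem_range.2 (by omega)), ← Finset.sum_filter]
  have h2 : (Finset.range (L + 1)).filter (fun i => k < i) = Finset.Ioc k L := by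
    ext i
    simp only [Finset.mem_filter, Finset.mem_range, Finset.mem_Ioc]
    omega
  rw [h2, ← Finset.sum_mul]
  ring


theorem hll_amalgam (τ : Ty) (m K : ℕ) :
    ∃ L : ℕ, ∀ e : ℕ → (Fin τ.n ↪o Ω),
      (∀ (i k : ℕ) (t : Fin τ.n), (t : ℕ) < m → e i t = e k t) →
      (∀ i k : ℕ, i < k → ∀ s t : Fin τ.n, m ≤ (t : ℕ) → e i s < e k t) →
      ∃ R : Cd Ω, (∀ k ≤ L, R ≤ std τ (e k)) ∧
        ∀ z : Ω → ℚ, Hull ℚ R.A R.v z →
          ∃ k < L, ∀ t, |z (e k t) - z (e L t)| ≤ 1 / ((K : ℚ) + 1) := by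
  classical
  obtain ⟨M, hMdef⟩ : ∃ M : ℕ, M = 2 * (K + 1) := ⟨_, rfl⟩
  have hM : 0 < M := by omega
  let Θ : Type := {f : Fin τ.N → Fin τ.n → Fin (M + 1) // ∀ l s t, s ≤ t → f l t ≤ f l s}
  have hΘ : Nonempty Θ := ⟨⟨fun _ _ => 0, fun _ _ _ _ => le_rfl⟩⟩
  let hFin : Fintype Θ := Fintype.ofFinite Θ
  obtain ⟨Q, hQdef⟩ : ∃ Q : ℕ, Q = Fintype.card Θ := ⟨_, rfl⟩
  have hQ : 0 < Q := by rw [hQdef]; exact Fintype.card_pos
  obtain ⟨ψ⟩ : Nonempty (Θ ≃ Fin Q) := ⟨(Fintype.equivFin Θ).trans (finCongr hQdef.symm)⟩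
  obtain ⟨θ, hθdef⟩ : ∃ θ : Fin Q → Fin τ.N → Fin τ.n → Fin (M + 1), θ = fun q => (ψ.symm q).1 :=
    ⟨_, rfl⟩
  have hθanti : ∀ q l s t, s ≤ t → θ q l t ≤ θ q l s := by
    intro q l s t hst
    rw [hθdef]
    exact (ψ.symm q).2 l s t hst
  have hθ : ∀ f : Fin τ.N → Fin τ.n → Fin (M + 1), (∀ l s t, s ≤ t → f l t ≤ f l s) →
      ∃ q, θ q = f := by
    intro f hf
    refine ⟨ψ ⟨f, hf⟩, ?_⟩
    rw [hθdef]
    simp
  have hM' : (0 : ℚ) < M := by exact_mod_cast hM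
  refine ⟨M * Q, fun e hroot hsep => ?_⟩
  obtain ⟨R, hR, hz⟩ := amalgam τ m e hroot hsep
    (fun k l t => ((θ ⟨k % Q, Nat.mod_lt _ hQ⟩ l t : ℕ) : ℚ) / M)
    (fun k l t => by positivity)
    (fun k l t => by
      rw [div_le_one hM']
      exact_mod_cast Nat.lt_succ_iff.1 (θ ⟨k % Q, Nat.mod_lt _ hQ⟩ l t).2)
    (fun k l s t hst => by
      apply div_le_div_of_nonneg_right _ hM'.le
      exact_mod_cast hθanti _ l s t hst)
    (M * Q)
  refine ⟨R, hR, fun z hzz => ?_⟩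
  obtain ⟨U, U1, U2, U3, U4⟩ := hz z hzz
  have hpos : (0 : ℚ) ≤ 1 / ((K : ℚ) + 1) := by positivity
  by_cases hmn : m < τ.n
  · have hU : Coef τ.N τ.n m (M * Q) (fun i l k t => U i l (e k t)) := by
      refine ⟨U1, ?_, ?_, U3⟩
      · intro i l k hk s t hst
        exact U2 i l k hk k hk s t ((e k).le_iff_le.2 hst)
      · intro i l k k' hkk hk' s t ht
        exact U2 i l k (hkk.le.trans hk') k' hk' s t (hsep k k' hkk s t ht).le
    obtain ⟨k, hk, hkk⟩ := numeric M M Q hM hM hQ ⟨m, hmn⟩ rfl θ hθ hU τ.W τ.nonneg τ.le_one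
    refine ⟨k, hk, fun t => ?_⟩
    rcases lt_or_ge (t : ℕ) m with ht | ht
    · rw [hroot k (M * Q) t ht, sub_self, abs_zero]
      exact hpos
    · have h1 := U4 k hk.le t
      rw [eval_amv τ m _ (M * Q) k hk.le t ht (fun i l => U i l (e k t))] at h1
      have h2 := U4 (M * Q) le_rfl t
      rw [eval_amv τ m _ (M * Q) (M * Q) le_rfl t ht (fun i l => U i l (e (M * Q) t))] at h2
      rw [h1, h2]
      have h3 := hkk t ht
      have h4 : (1 : ℚ) / M + 1 / M = 1 / ((K : ℚ) + 1) := by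
        rw [hMdef]
        push_cast
        field_simp
        ring
      rw [h4] at h3
      simp only [Finset.Ioc_self, Finset.sum_empty, mul_zero, add_zero]
      exact h3
  · refine ⟨0, by positivity, fun t => ?_⟩
    rw [hroot 0 (M * Q) t (by omega), sub_self, abs_zero]
    exact hpos


theorem delta_fix (hc : ∀ x : Ω, (Set.Iio x).Countable) (N : ℕ) (S0 : Set Ω)
    (hS0 : ¬ S0.Countable) (E : Ω → (Fin N ↪o Ω)) :
    ∃ (m : ℕ) (ρ : Fin N → Ω), ∀ x : Ω, ∃ β : ℕ → Ω, (∀ i, β i ∈ S0 ∧ x < β i) ∧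
      StrictMono β ∧ (∀ i (t : Fin N), (t : ℕ) < m → E (β i) t = ρ t) ∧
      ∀ i k : ℕ, i < k → ∀ s t : Fin N, m ≤ (t : ℕ) → E (β i) s < E (β k) t := by
  classical
  have hne : Nonempty Ω := by
    by_contra h
    rw [not_nonempty_iff] at h
    apply hS0
    have h1 : S0 = ∅ := Set.eq_empty_of_isEmpty S0
    rw [h1]
    exact Set.countable_empty
  have hIic : ∀ x : Ω, (Set.Iic x).Countable := fun x => by
    have h1 : Set.Iic x ⊆ insert x (Set.Iio x) := by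
      intro y hy
      rcases eq_or_lt_of_le (Set.mem_Iic.1 hy) with h2 | h2
      · exact Or.inl h2
      · exact Or.inr h2
    exact ((hc x).insert x).mono h1
  obtain ⟨P, hPdef⟩ : ∃ P : ℕ → Prop, P = fun m => ∃ ρ : Fin N → Ω,
      ¬ {β | β ∈ S0 ∧ ∀ t : Fin N, (t:ℕ) < m → E β t = ρ t}.Countable := ⟨_, rfl⟩
  have hP0 : P 0 := by
    rw [hPdef]
    obtain ⟨y⟩ := hne
    refine ⟨fun _ => y, fun h => hS0 (h.mono ?_)⟩
    intro β hβ
    exact ⟨hβ, fun t ht => absurd ht (Nat.not_lt_zero _)⟩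
  obtain ⟨m, hm, hmN, hmax⟩ : ∃ m, P m ∧ m ≤ N ∧ (m < N → ¬ P (m+1)) := by
    refine ⟨Nat.findGreatest P N, Nat.findGreatest_spec (Nat.zero_le N) hP0,
      Nat.findGreatest_le N, fun h => ?_⟩
    exact Nat.findGreatest_is_greatest (Nat.lt_succ_self _) h
  rw [hPdef] at hm
  obtain ⟨ρ, hρ⟩ := hm
  refine ⟨m, ρ, fun x => ?_⟩
  have hbad : ∀ hmN' : m < N, ∀ b, {β | (β ∈ S0 ∧ ∀ t : Fin N, (t:ℕ) < m → E β t = ρ t) ∧
      E β ⟨m, hmN'⟩ ≤ b}.Countable := by
    intro hmN' b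
    have h1 : {β | (β ∈ S0 ∧ ∀ t : Fin N, (t:ℕ) < m → E β t = ρ t) ∧
      E β ⟨m, hmN'⟩ ≤ b} ⊆ ⋃ y ∈ Set.Iic b, {β | (β ∈ S0 ∧ ∀ t : Fin N, (t:ℕ) < m →
        E β t = ρ t) ∧ E β ⟨m, hmN'⟩ = y} := by
      intro β hβ
      simp only [Set.mem_iUnion]
      exact ⟨E β ⟨m, hmN'⟩, hβ.2, hβ.1, rfl⟩
    refine Set.Countable.mono h1 (Set.Countable.biUnion (hIic b) fun y _ => ?_)
    by_contra hcon
    apply hmax hmN'
    rw [hPdef]
    refine ⟨Function.update ρ ⟨m, hmN'⟩ y, fun hcon' => hcon (hcon'.mono ?_)⟩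
    rintro β ⟨⟨h2, h3⟩, h4⟩
    refine ⟨h2, fun t ht => ?_⟩
    by_cases h5 : t = ⟨m, hmN'⟩
    · rw [h5, Function.update_self]
      exact h4
    · rw [Function.update_of_ne h5]
      apply h3
      have : (t:ℕ) ≠ m := fun h => h5 (Fin.ext h)
      omega
  obtain ⟨f, hf1, hf2⟩ := exists_seq_of_forall_finset_exists
    (fun β : Ω => (β ∈ S0 ∧ ∀ t : Fin N, (t:ℕ) < m → E β t = ρ t) ∧ x < β)
    (fun β β' : Ω => β < β' ∧ ∀ s t : Fin N, m ≤ (t:ℕ) → E β s < E β' t) (by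
      intro F hF
      have hBc : (Set.Iic x ∪ (⋃ β ∈ F, Set.Iic β) ∪ (⋃ (h : m < N), ⋃ β ∈ F, ⋃ s : Fin N,
          {β' | (β' ∈ S0 ∧ ∀ t : Fin N, (t:ℕ) < m → E β' t = ρ t) ∧
            E β' ⟨m, h⟩ ≤ E β s})).Countable := by
        refine ((hIic x).union ?_).union ?_
        · exact F.countable_toSet.biUnion fun β _ => hIic β
        · refine Set.countable_iUnion fun h => ?_
          refine F.countable_toSet.biUnion fun β _ => ?_
          exact Set.countable_iUnion fun s => hbad h (E β s)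
      have hex : ∃ β', (β' ∈ S0 ∧ ∀ t : Fin N, (t:ℕ) < m → E β' t = ρ t) ∧
          β' ∉ (Set.Iic x ∪ (⋃ β ∈ F, Set.Iic β) ∪ (⋃ (h : m < N), ⋃ β ∈ F, ⋃ s : Fin N,
          {β' | (β' ∈ S0 ∧ ∀ t : Fin N, (t:ℕ) < m → E β' t = ρ t) ∧
            E β' ⟨m, h⟩ ≤ E β s})) := by
        by_contra hcon
        push Not at hcon
        exact hρ (hBc.mono fun β hβ => hcon β hβ)
      obtain ⟨β', hβ', hB⟩ := hex
      rw [Set.mem_union, Set.mem_union, not_or, not_or] at hB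
      obtain ⟨⟨hB1, hB2⟩, hB3⟩ := hB
      refine ⟨β', ⟨hβ', not_le.1 hB1⟩, fun β hβ => ⟨?_, fun s t hmt => ?_⟩⟩
      · by_contra hcon
        apply hB2
        simp only [Set.mem_iUnion]
        exact ⟨β, hβ, not_lt.1 hcon⟩
      · have hm' : m < N := lt_of_le_of_lt hmt t.2
        have h1 : E β s < E β' ⟨m, hm'⟩ := by
          by_contra hcon
          apply hB3
          simp only [Set.mem_iUnion]
          exact ⟨hm', β, hβ, s, hβ', not_lt.1 hcon⟩
        refine lt_of_lt_of_le h1 ?_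
        exact (E β').monotone hmt)
  refine ⟨f, fun i => ⟨(hf1 i).1.1, (hf1 i).2⟩, ?_, fun i t ht => (hf1 i).1.2 t ht,
    fun i k hik s t hm => (hf2 i k hik).2 s t hm⟩
  intro i k hik
  exact (hf2 i k hik).1


theorem delta_seq [Uncountable Ω] (hc : ∀ x : Ω, (Set.Iio x).Countable) {T : Type} [Countable T]
    (n : T → ℕ) (f : Ω → Σ τ : T, (Fin (n τ) ↪o Ω)) :
    ∃ (τ : T) (m : ℕ) (ρ : Fin (n τ) → Ω), ∀ x : Ω, ∃ (β : ℕ → Ω) (e : ℕ → (Fin (n τ) ↪o Ω)),
      (∀ i, x < β i) ∧ StrictMono β ∧ (∀ i, f (β i) = ⟨τ, e i⟩) ∧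
      (∀ i (t : Fin (n τ)), (t : ℕ) < m → e i t = ρ t) ∧
      ∀ i k : ℕ, i < k → ∀ s t : Fin (n τ), m ≤ (t : ℕ) → e i s < e k t := by
  classical
  obtain ⟨τ, hτ⟩ : ∃ τ : T, ¬ {β : Ω | (f β).1 = τ}.Countable := by
    by_contra hcon
    push Not at hcon
    have h1 : (Set.univ : Set Ω) ⊆ ⋃ τ : T, {β : Ω | (f β).1 = τ} := by
      intro β _
      exact Set.mem_iUnion.mpr ⟨(f β).1, rfl⟩
    exact Set.not_countable_univ ((Set.countable_iUnion hcon).mono h1)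
  have hE : ∀ β : Ω, ∃ e : Fin (n τ) ↪o Ω, (f β).1 = τ → f β = ⟨τ, e⟩ := by
    have key : ∀ s : Σ τ : T, (Fin (n τ) ↪o Ω), s.1 = τ → ∃ e : Fin (n τ) ↪o Ω, s = ⟨τ, e⟩ := by
      rintro ⟨τ', e'⟩ h
      subst h
      exact ⟨e', rfl⟩
    intro β
    by_cases h : (f β).1 = τ
    · obtain ⟨e, he⟩ := key (f β) h
      exact ⟨e, fun _ => he⟩
    · have hne : {β : Ω | (f β).1 = τ}.Nonempty := by
        rw [Set.nonempty_iff_ne_empty]
        intro h0
        exact hτ (by rw [h0]; exact Set.countable_empty)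
      obtain ⟨β0, h0⟩ := hne
      obtain ⟨e, -⟩ := key (f β0) h0
      exact ⟨e, fun h' => absurd h' h⟩
  choose E hE using hE
  obtain ⟨m, ρ, hmρ⟩ := delta_fix hc (n τ) {β : Ω | (f β).1 = τ} hτ E
  refine ⟨τ, m, ρ, fun x => ?_⟩
  obtain ⟨β, h1, h2, h3, h4⟩ := hmρ x
  exact ⟨β, fun i => E (β i), fun i => (h1 i).2, h2, fun i => hE (β i) (h1 i).1, h3, h4⟩

/-- The image of a finite set of pairs `(t, q)` under `(t, q) ↦ (e t, q)`. -/
def push {n : ℕ} (e : Fin n ↪o Ω) (b : Finset (Fin n × ℚ)) : Finset (Ω × ℚ) :=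
  b.map (e.toEmbedding.prodMap (Function.Embedding.refl ℚ))

theorem mem_push {n : ℕ} (e : Fin n ↪o Ω) (b : Finset (Fin n × ℚ)) (w : Ω × ℚ) :
    w ∈ push e b ↔ ∃ t, e t = w.1 ∧ (t, w.2) ∈ b := by
  unfold push
  rw [Finset.mem_map]
  constructor
  · rintro ⟨⟨t, q⟩, h, rfl⟩
    exact ⟨t, rfl, h⟩
  · rintro ⟨t, h1, h2⟩
    exact ⟨(t, w.2), h2, Prod.ext h1 rfl⟩


theorem good_cover (p : Cd Ω) (c : Ω → Finset (Ω × ℚ) × ℕ → Set (Cd Ω)) (h : p ∈ IsFun c)
    (β : Ω) :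
    ∃ x : Σ y : (Σ τ : Ty, Finset (Fin τ.n × ℚ) × ℕ), (Fin y.1.n ↪o Ω),
      std x.1.1 x.2 ≤ p ∧ std x.1.1 x.2 ∈ meets (c β (push x.2 x.1.2.1, x.1.2.2)) := by
  classical
  obtain ⟨q, hqp, b, hq⟩ := IsFun.total h β
  obtain ⟨q', hq', hF⟩ := add_coords q (b.1.image Prod.fst)
  obtain ⟨τ, e, h1, h2⟩ := exists_std q'
  have hinj : Function.Injective (fun w : Fin τ.n × ℚ => ((e w.1, w.2) : Ω × ℚ)) := by
    intro w w' hw
    have hw0 : ((e w.1, w.2) : Ω × ℚ) = (e w'.1, w'.2) := hw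
    have hw1 : e w.1 = e w'.1 := (Prod.mk.inj hw0).1
    have hw2 : w.2 = w'.2 := (Prod.mk.inj hw0).2
    exact Prod.ext (e.injective hw1) hw2
  let b' : Finset (Fin τ.n × ℚ) :=
    b.1.preimage (fun w : Fin τ.n × ℚ => ((e w.1, w.2) : Ω × ℚ)) hinj.injOn
  have hb' : push e b' = b.1 := by
    ext w
    rw [mem_push]
    constructor
    · rintro ⟨t, ht, hw⟩
      have h30 := Finset.mem_preimage.1 (show (t, w.2) ∈ b.1.preimage
        (fun w : Fin τ.n × ℚ => ((e w.1, w.2) : Ω × ℚ)) hinj.injOn from hw)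
      have h3 : ((e t, w.2) : Ω × ℚ) ∈ b.1 := h30
      rw [ht] at h3
      exact h3
    · intro hw
      have h3 : w.1 ∈ q'.A := hF (Finset.mem_image_of_mem Prod.fst hw)
      have h4 : w.1 ∈ (std τ e).A := (Cd.le_def.1 h1).1 h3
      obtain ⟨t, ht⟩ := (mem_std_A τ e w.1).1 h4
      refine ⟨t, ht, Finset.mem_preimage.2 ?_⟩
      show ((e t, w.2) : Ω × ℚ) ∈ b.1
      rw [ht]
      exact hw
  refine ⟨⟨⟨τ, (b', b.2)⟩, e⟩, h1.trans (hq'.trans hqp), ?_⟩
  show std τ e ∈ meets (c β (push e b', b.2))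
  rw [hb']
  exact down_meets _ q hq _ (h1.trans hq')


theorem force_covers [Uncountable Ω] (hc : ∀ x : Ω, (Set.Iio x).Countable) (p : Cd Ω)
    (c : Ω → Finset (Ω × ℚ) × ℕ → Set (Cd Ω)) (h : p ∈ IsFun c) :
    ∃ R ≤ p, ∃ (β : Ω) (D : Finset (Ω × (Finset (Ω × ℚ) × ℕ))) (b : Finset (Ω × ℚ) × ℕ),
      (∀ e ∈ D, e.1 < β ∧ R ∈ meets (c e.1 e.2)) ∧ R ∈ meets (c β b) ∧ Covers R b D := by
  classical
  choose f hf1 hf2 using good_cover p c h
  obtain ⟨⟨τ, b', K⟩, m, ρ, hρ⟩ := delta_seq hc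
    (T := Σ τ : Ty, Finset (Fin τ.n × ℚ) × ℕ) (fun y => y.1.n) f
  obtain ⟨x⟩ : Nonempty Ω := inferInstance
  obtain ⟨β, e, hx, hβ, hfe, hroot', hsep⟩ := hρ x
  obtain ⟨L, hL⟩ := hll_amalgam (Ω := Ω) τ m K
  obtain ⟨R, hR1, hR2⟩ := hL e (fun i k t ht => by rw [hroot' i t ht, hroot' k t ht]) hsep
  have hf1' : ∀ k, std τ (e k) ≤ p := by
    intro k
    have := hf1 (β k)
    rw [hfe k] at this
    exact this
  have hf2' : ∀ k, std τ (e k) ∈ meets (c (β k) (push (e k) b', K)) := by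
    intro k
    have := hf2 (β k)
    rw [hfe k] at this
    exact this
  refine ⟨R, (hR1 0 (Nat.zero_le _)).trans (hf1' 0), β L,
    (Finset.range L).image (fun k => (β k, (push (e k) b', K))), (push (e L) b', K), ?_, ?_, ?_⟩
  · intro w hw
    rw [Finset.mem_image] at hw
    obtain ⟨k, hk, rfl⟩ := hw
    rw [Finset.mem_range] at hk
    exact ⟨hβ hk, down_meets _ _ (hf2' k) _ (hR1 k hk.le)⟩
  · exact down_meets _ _ (hf2' L) _ (hR1 L le_rfl)
  · intro z hz hnear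
    obtain ⟨k, hk, hkz⟩ := hR2 z hz
    refine ⟨(β k, (push (e k) b', K)), Finset.mem_image.mpr ⟨k, Finset.mem_range.mpr hk, rfl⟩, ?_⟩
    intro w hw
    obtain ⟨t, ht1, ht2⟩ := (mem_push (e k) b' w).mp hw
    have hn := hnear (e L t, w.2) ((mem_push (e L) b' (e L t, w.2)).mpr ⟨t, rfl, ht2⟩)
    have hd := hkz t
    simp only [Nat.cast_one, Nat.cast_ofNat, Rat.cast_id] at hn ⊢
    rw [← ht1]
    have h1 : z (e k t) - w.2 = (z (e k t) - z (e L t)) + (z (e L t) - w.2) := by ring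
    rw [h1]
    have h2 : (2:ℚ) / ((K:ℚ) + 1) = 1 / ((K:ℚ)+1) + 1 / ((K:ℚ)+1) := by ring
    rw [h2]
    exact lt_of_le_of_lt (abs_add_le _ _) (add_lt_add_of_le_of_lt hd hn)


theorem force_apart [Uncountable Ω] (hc : ∀ x : Ω, (Set.Iio x).Countable) (p : Cd Ω)
    (S : Ω → Set (Cd Ω)) (h : p ∈ FUnbounded S) :
    ∃ R ≤ p, ∃ a b : Ω, a ≠ b ∧ R ∈ meets (S a) ∧ R ∈ meets (S b) ∧ Apart R a b := by
  classical
  have step : ∀ β : Ω, ∃ x : Σ y : (Σ τ : Ty, Fin τ.n), (Fin y.1.n ↪o Ω),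
      std x.1.1 x.2 ≤ p ∧ β < x.2 x.1.2 ∧ std x.1.1 x.2 ∈ meets (S (x.2 x.1.2)) := by
    intro β
    obtain ⟨r, hr, a, hra, hβa⟩ := mem_fex.1 (h β) p le_rfl
    obtain ⟨q, hq, haq⟩ := add_coord r a
    obtain ⟨τ, e, h1, h2⟩ := exists_std q
    have ha : a ∈ (std τ e).A := h1.1 haq
    obtain ⟨t, ht⟩ := (mem_std_A τ e a).1 ha
    refine ⟨⟨⟨τ, t⟩, e⟩, h1.trans (hq.trans hr), ?_, ?_⟩
    · show β < e t
      rw [ht]; exact hβa
    · show std τ e ∈ meets (S (e t))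
      rw [ht]
      exact down_meets _ _ hra _ (h1.trans hq)
  choose f hf using step
  obtain ⟨⟨τ, t⟩, m, ρ, H⟩ := delta_seq hc (T := Σ τ : Ty, Fin τ.n) (fun y => y.1.n) f
  obtain ⟨β, e, hx, hmono, hfe, hroot, hsep⟩ := H (ρ t)
  have key : ∀ i, std τ (e i) ≤ p ∧ β i < e i t ∧ std τ (e i) ∈ meets (S (e i t)) := by
    intro i
    have := hf (β i)
    rw [hfe i] at this
    exact this
  have hm : m ≤ (t : ℕ) := by
    by_contra hlt
    have h1 := hroot 0 t (not_le.1 hlt)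
    have h2 := (hx 0).trans (key 0).2.1
    rw [h1] at h2
    exact lt_irrefl _ h2
  obtain ⟨R, hR0, hR1, hAp⟩ := sep_amalgam τ m e
    (fun i k t ht => (hroot i t ht).trans (hroot k t ht).symm) hsep
  refine ⟨R, hR0.trans (key 0).1, e 0 t, e 1 t, (hsep 0 1 Nat.zero_lt_one t t hm).ne,
    down_meets _ _ (key 0).2.2 _ hR0, down_meets _ _ (key 1).2.2 _ hR1, hAp t hm⟩

theorem h170_inj [WellFoundedLT Ω] (hc : ∀ x : Ω, (Set.Iio x).Countable) (A : Set (Cd Ω))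
    (hA : ¬ A.Countable) : ∃ g : Ω → Cd Ω, Function.Injective g ∧ ∀ β, g β ∈ A := by
  classical
  obtain ⟨g, hg⟩ : ∃ g : Ω → Cd Ω, ∀ β, g β = Classical.epsilon (fun q => q ∈ A ∧ ∀ α, α < β → g α ≠ q) := by
    refine ⟨WellFounded.fix (wellFounded_lt (α := Ω)) (fun β rec => Classical.epsilon
      (fun q => q ∈ A ∧ ∀ α (h : α < β), rec α h ≠ q)), fun β => ?_⟩
    rw [WellFounded.fix_eq]
  have key : ∀ β, g β ∈ A ∧ ∀ α, α < β → g α ≠ g β := by
    intro β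
    have hex : ∃ q, q ∈ A ∧ ∀ α, α < β → g α ≠ q := by
      by_contra hcon
      push Not at hcon
      apply hA
      refine Set.Countable.mono ?_ ((hc β).image g)
      intro q hq
      obtain ⟨α, hα, h⟩ := hcon q hq
      exact ⟨α, hα, h⟩
    have := Classical.epsilon_spec hex
    rw [← hg β] at this
    exact this
  refine ⟨g, ?_, fun β => (key β).1⟩
  intro a b hab
  rcases lt_trichotomy a b with h | h | h
  · exact absurd hab ((key b).2 a h)
  · exact h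
  · exact absurd hab.symm ((key a).2 b h)


theorem cd_ccc [WellFoundedLT Ω] [Uncountable Ω] (hc : ∀ x : Ω, (Set.Iio x).Countable) :
    CCC (Cd Ω) := by
  classical
  intro A hA
  by_contra hcount
  obtain ⟨g, hinj, hgA⟩ := h170_inj hc A hcount
  have h1 : ∀ β, ∃ y : Σ τ : Ty, (Fin τ.n ↪o Ω), std y.1 y.2 ≤ g β := by
    intro β
    obtain ⟨τ, e, h, -⟩ := exists_std (g β)
    exact ⟨⟨τ, e⟩, h⟩
  choose f hf using h1
  obtain ⟨τ, m, ρ, h⟩ := delta_seq hc Ty.n f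
  obtain ⟨x⟩ : Nonempty Ω := inferInstance
  obtain ⟨β, e, -, hmono, hfe, hroot, hsep⟩ := h x
  obtain ⟨R, hR0, hR1, -⟩ := sep_amalgam τ m e (fun i k t ht => by rw [hroot i t ht, hroot k t ht]) hsep
  have e0 : std τ (e 0) ≤ g (β 0) := by
    have := hf (β 0)
    rw [hfe 0] at this
    exact this
  have e1 : std τ (e 1) ≤ g (β 1) := by
    have := hf (β 1)
    rw [hfe 1] at this
    exact this
  have := hinj (hA _ (hgA (β 0)) _ (hgA (β 1)) ⟨R, hR0.trans e0, hR1.trans e1⟩)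
  exact absurd this (hmono (by norm_num : (0:ℕ) < 1)).ne


theorem force_directed (u : Cd Ω) : u ∈ FDirected (fun p : Cd Ω => {w : Cd Ω | w ≤ p}) := by
  have hdown : ∀ p : Cd Ω, Down {w : Cd Ω | w ≤ p} := fun p w hw w' hw' => le_trans hw' hw
  intro p q
  rw [mem_fimp]
  rintro u1 _ ⟨h1, h2⟩
  obtain ⟨u2, h12, hu2⟩ := exists_of_meets (hdown p) h1
  obtain ⟨u3, h23, hu3⟩ := exists_of_meets (hdown q) (down_meets _ _ h2 _ h12)
  refine ⟨u3, le_trans h23 h12, ?_⟩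
  have hu3p : u3 ≤ p := le_trans h23 hu2
  refine mem_fex_of_mem u3 (down_fand (down_meets _) (down_fground _)) ?_
  exact ⟨meets_of_mem (show u3 ≤ u3 from le_refl _), hu3p, hu3⟩


theorem forced [Uncountable Ω] (hc : ∀ x : Ω, (Set.Iio x).Countable) (p : Cd Ω) :
    p ∈ ForcesConvexPrinciple (Cd Ω) Ω := by
  refine mem_fex_of_mem (fun p : Cd Ω => {w : Cd Ω | w ≤ p})
    (down_fand (down_fall fun _ => down_fall fun _ => down_fimp _ _)
      (down_fand (down_fall fun _ => down_fimp _ _) (down_fall fun _ => down_fimp _ _)))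
    ⟨force_directed p, fun c => mem_fimp.2 fun q _ hqc => ?_, fun S => mem_fimp.2 fun q _ hqS => ?_⟩
  · obtain ⟨R, hR, β, D, b, hD, hb, hcov⟩ := force_covers hc q c hqc
    refine ⟨R, hR, mem_fex_of_mem β (down_fex _) (mem_fex_of_mem D (down_fex _)
      (mem_fex_of_mem R (down_fex _) (mem_fex_of_mem b
        (down_fand (down_meets _) (down_fand (down_fall fun e => down_fall fun _ =>
          down_fand (down_fground _) (down_meets _))
          (down_fand (down_meets _) (down_fground _)))) ?_)))⟩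
    exact ⟨meets_of_mem (le_refl R), fun e he => ⟨(hD e he).1, (hD e he).2⟩, hb, hcov⟩
  · obtain ⟨R, hR, a, b, hab, ha, hb, hap⟩ := force_apart hc q S hqS
    refine ⟨R, hR, mem_fex_of_mem a (down_fex _) (mem_fex_of_mem b (down_fex _)
      (mem_fex_of_mem R
        (down_fand (down_meets _) (down_fand (down_meets _)
          (down_fand (down_meets _) (down_fground _)))) ?_))⟩
    exact ⟨ha, hb, meets_of_mem (le_refl R), hab, hap⟩

end Force

/-- There is a well-order of type `ω₁`. -/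
theorem exists_omega : ∃ (Ω : Type) (_ : LinearOrder Ω), WellFoundedLT Ω ∧ Uncountable Ω ∧
    ∀ x : Ω, (Set.Iio x).Countable := by
  refine ⟨(ℵ_ 1).ord.ToType, inferInstance, inferInstance, ?_, ?_⟩
  · rw [← Cardinal.aleph0_lt_mk_iff, Cardinal.mk_ord_toType]
    exact Cardinal.aleph0_lt_aleph_one
  · intro x
    have h : #(Set.Iio x) < ℵ_ 1 := Cardinal.mk_Iio_toType_ord_lt x
    rw [← Cardinal.le_aleph0_iff_set_countable]
    exact Order.lt_succ_iff.1 (h.trans_eq Cardinal.succ_aleph0.symm)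

/-- The main theorem. -/
theorem final :
    (∃ (Ω : Type) (_ : LinearOrder Ω), WellFoundedLT Ω ∧ Uncountable Ω ∧
      ∀ x : Ω, (Set.Iio x).Countable) ∧
    (∀ (Ω : Type) [LinearOrder Ω] [WellFoundedLT Ω] [Uncountable Ω],
      (∀ x : Ω, (Set.Iio x).Countable) → ConvexPrinciple Ω → ¬ PositiveQ2) ∧
    (∀ (Ω : Type) [LinearOrder Ω] [WellFoundedLT Ω] [Uncountable Ω],
      (∀ x : Ω, (Set.Iio x).Countable) → ∃ (P : Type) (_ : Preorder P), Nonempty P ∧ CCC P ∧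
        ∀ p : P, p ∈ ForcesConvexPrinciple P Ω) ∧
    (∀ (Ω : Type) [LinearOrder Ω],
      (() ∈ ForcesConvexPrinciple Unit Ω) ↔ ConvexPrinciple Ω) := by
  refine ⟨exists_omega, ?_, ?_, ?_⟩
  · intro Ω _ _ _ hc h
    exact zfc Ω hc h
  · intro Ω _ _ _ hc
    exact ⟨Cd Ω, inferInstance, inferInstance, cd_ccc hc, fun p => forced hc p⟩
  · intro Ω _
    exact trivial_forces Ω

end Pool.Agent.Helper161.Cvx
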